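import Pool.Agent.Helper34.RB.Defs
import Pool.Agent.Helper16.UB.Defs

/-!
# RU-2: from bounded families of sets of prime powers to admissible sets

Put the proof into this file (keep the statement and the namespace).
-/

open Finset

namespace Pool.Agent.Helper81.RU

open Pool.Agent.Helper34.RB (Bdd)

/-- the prime powers (with exponent `≥ 1`) dividing `a`, as elements of `Fin (N + 1)` -/
def SP (N a : ℕ) : Finset (Fin (N + 1)) :=
  univ.filter fun q => IsPrimePow (q : ℕ) ∧ (q : ℕ) ∣ a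

/-- a prime power `q` divides `m / p` iff it divides `m` and is not the exact power of `p` in `m` -/
private theorem dvd_div_iff_aux {m p q : ℕ} (hm : 0 < m) (hp : p.Prime) (hpm : p ∣ m)
    (hq : IsPrimePow q) :
    q ∣ m / p ↔ q ≠ p ^ m.factorization p ∧ q ∣ m := by
  have hmp : m / p * p = m := Nat.div_mul_cancel hpm
  constructor
  · intro h
    refine ⟨?_, h.trans (Nat.div_dvd_of_dvd hpm)⟩
    rintro rfl
    have h1 : p ^ (m.factorization p + 1) ∣ m := by
      have h2 := Nat.mul_dvd_mul_right h p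
      rw [hmp] at h2
      rw [pow_succ]
      exact h2
    exact Nat.pow_succ_factorization_not_dvd hm.ne' hp h1
  · rintro ⟨hne, hqm⟩
    rw [isPrimePow_nat_iff] at hq
    obtain ⟨l, i, hl, hi, rfl⟩ := hq
    by_cases hlp : l = p
    · subst hlp
      have h1 : i ≤ m.factorization l := (hl.pow_dvd_iff_le_factorization hm.ne').mp hqm
      have h2 : i ≠ m.factorization l := by
        rintro rfl
        exact hne rfl
      have h3 : l ^ (i + 1) ∣ m :=
        (hl.pow_dvd_iff_le_factorization hm.ne').mpr (by omega)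
      rw [← hmp, pow_succ] at h3
      exact Nat.dvd_of_mul_dvd_mul_right hl.pos h3
    · have h1 : Nat.Coprime (l ^ i) p :=
        Nat.Coprime.pow_left i ((Nat.coprime_primes hl hp).mpr hlp)
      rw [← hmp] at hqm
      exact h1.dvd_of_dvd_mul_right hqm

/-- Proof (compare `adm` in Helper34/RB/Adm.lean).  Let `m > 0` and `Q` the set of the primes `p ∣ m`
with `m / p ∈ A`; `R A m ≤ Q.card` exactly as there.  If `Q.card ≤ 1` we are done (`1 ≤ r`).  Otherwise
let `T = SP N m` and for `p ∈ Q` let `f p = p ^ (m.factorization p)`, which divides `m` exactly.  Taking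
`p' ∈ Q`, `p' ≠ p`: `f p` is coprime to `p'` and `f p ∣ m = (m / p') * p'`, so `f p ∣ m / p' ∈ A`, so
`f p ≤ N`.  So `f p` (as an element of `Fin (N + 1)`) is in `T`, and
`SP N (m / p) = T.erase (f p)`: for a prime power `q = l ^ i` (`i ≥ 1`): `q ∣ m / p` iff `q ∣ m` and
`q ≠ f p` (if `l ≠ p`, then `q` is coprime to `p`; if `l = p`: `q ∣ m / p` iff
`i ≤ m.factorization p - 1`).  `f` is injective on `Q` (its values are powers of different primes with
exponent `≥ 1`).  So `Q` injects into `T.filter fun x => F (T.erase x)`, of cardinality `≤ r` by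
`hF T`. -/
theorem adm2 {N r : ℕ} (hr : 1 ≤ r) (F : Finset (Fin (N + 1)) → Prop) (hF : Bdd r F)
    (A : Finset ℕ) (hA : ∀ a ∈ A, 1 ≤ a ∧ a ≤ N ∧ F (SP N a)) :
    Helper16.UB.Admissible r N A := by
  classical
  refine ⟨fun a ha => mem_Icc.mpr ⟨(hA a ha).1, (hA a ha).2.1⟩, fun m hm => ?_⟩
  set Q : Finset ℕ := m.primeFactors.filter (fun p => m / p ∈ A) with hQ
  have hQmem : ∀ p, p ∈ Q ↔ p.Prime ∧ p ∣ m ∧ m / p ∈ A := by
    intro p
    rw [hQ, mem_filter, Nat.mem_primeFactors]
    constructor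
    · rintro ⟨⟨h1, h2, _⟩, h3⟩
      exact ⟨h1, h2, h3⟩
    · rintro ⟨h1, h2, h3⟩
      exact ⟨⟨h1, h2, hm.ne'⟩, h3⟩
  have hR : Helper16.UB.R A m ≤ Q.card := by
    unfold Helper16.UB.R
    rw [← Set.ncard_coe_finset]
    refine Set.ncard_le_ncard_of_injOn (fun x : ℕ × ℕ => x.1) ?_ ?_ (Finset.finite_toSet Q)
    · rintro ⟨p, a⟩ ⟨h1, h2, h3⟩
      simp only at h1 h2 h3
      rw [mem_coe, hQmem]
      refine ⟨h1, ⟨a, h3⟩, ?_⟩
      rw [h3, Nat.mul_div_cancel_left _ h1.pos]
      exact h2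
    · rintro ⟨p, a⟩ ⟨h1, h2, h3⟩ ⟨p', a'⟩ ⟨h1', h2', h3'⟩ h
      simp only at h1 h2 h3 h1' h2' h3' h
      subst h
      have : a = a' := Nat.eq_of_mul_eq_mul_left h1.pos (h3.symm.trans h3')
      rw [this]
  refine hR.trans ?_
  by_cases hQ1 : Q.card ≤ 1
  · exact hQ1.trans hr
  push Not at hQ1
  set T := SP N m with hT
  refine le_trans ?_ (hF T)
  -- the exact powers
  have hle : ∀ p ∈ Q, p ^ m.factorization p ≤ N := by
    intro p hp
    obtain ⟨p', hp', hne⟩ := Finset.exists_mem_ne hQ1 p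
    obtain ⟨hpp, hpm, hpA⟩ := (hQmem p).mp hp
    obtain ⟨h1, h2, h3⟩ := (hQmem p').mp hp'
    have h4 : p ^ m.factorization p ∣ m / p' * p' := by
      rw [Nat.div_mul_cancel h2]
      exact Nat.ordProj_dvd m p
    have h5 : Nat.Coprime (p ^ m.factorization p) p' :=
      Nat.Coprime.pow_left _ ((Nat.coprime_primes hpp h1).mpr (Ne.symm hne))
    obtain ⟨hb1, hb2, -⟩ := hA _ h3
    have h6 := Nat.le_of_dvd (by omega) (h5.dvd_of_dvd_mul_right h4)
    omega
  have hpos : ∀ p ∈ Q, m.factorization p ≠ 0 := by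
    intro p hp
    obtain ⟨hpp, hpm, -⟩ := (hQmem p).mp hp
    exact (hpp.factorization_pos_of_dvd hm.ne' hpm).ne'
  have hpow : ∀ p ∈ Q, IsPrimePow (p ^ m.factorization p) := by
    intro p hp
    exact (((hQmem p).mp hp).1.isPrimePow).pow (hpos p hp)
  have hval : ∀ p ∈ Q,
      ((Fin.ofNat (N + 1) (p ^ m.factorization p) : Fin (N + 1)) : ℕ) = p ^ m.factorization p := by
    intro p hp
    have := hle p hp
    change (p ^ m.factorization p) % (N + 1) = p ^ m.factorization p
    exact Nat.mod_eq_of_lt (by omega)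
  apply Finset.card_le_card_of_injOn (fun p => Fin.ofNat (N + 1) (p ^ m.factorization p))
  · intro p hp
    have hpQ : p ∈ Q := mem_coe.mp hp
    have hv := hval p hpQ
    obtain ⟨hpp, hpm, hpA⟩ := (hQmem p).mp hpQ
    have hpT : (Fin.ofNat (N + 1) (p ^ m.factorization p) : Fin (N + 1)) ∈ T := by
      rw [hT]
      unfold SP
      rw [mem_filter, hv]
      exact ⟨mem_univ _, hpow p hpQ, Nat.ordProj_dvd m p⟩
    have hS : SP N (m / p) = T.erase (Fin.ofNat (N + 1) (p ^ m.factorization p)) := by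
      ext x
      rw [mem_erase, hT]
      unfold SP
      rw [mem_filter, mem_filter]
      constructor
      · rintro ⟨-, h1, h2⟩
        obtain ⟨h3, h4⟩ := (dvd_div_iff_aux hm hpp hpm h1).mp h2
        refine ⟨?_, mem_univ _, h1, h4⟩
        rintro rfl
        exact h3 hv
      · rintro ⟨h0, -, h1, h2⟩
        refine ⟨mem_univ _, h1, (dvd_div_iff_aux hm hpp hpm h1).mpr ⟨?_, h2⟩⟩
        intro h
        apply h0
        apply Fin.ext
        rw [hv]
        exact h
    refine mem_coe.mpr (mem_filter.mpr ⟨hpT, ?_⟩)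
    rw [← hS]
    exact (hA _ hpA).2.2
  · intro p hp p' hp' h
    have hpQ : p ∈ Q := mem_coe.mp hp
    have hpQ' : p' ∈ Q := mem_coe.mp hp'
    have h1 := hval p hpQ
    have h2 := hval p' hpQ'
    have h3 : p ^ m.factorization p = p' ^ m.factorization p' := by
      rw [← h1, ← h2]
      exact congrArg _ h
    have h4 : p ∣ p' ^ m.factorization p' := by
      rw [← h3]
      exact dvd_pow_self p (hpos p hpQ)
    exact (Nat.prime_dvd_prime_iff_eq ((hQmem p).mp hpQ).1 ((hQmem p').mp hpQ').1).mp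
      (((hQmem p).mp hpQ).1.dvd_of_dvd_pow h4)

end Pool.Agent.Helper81.RU
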