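import Pool.Agent.Helper34.RB.Space
import Pool.Agent.Helper34.RB.Stat
import Pool.Agent.Helper34.RB.Inv
import Pool.Agent.Helper34.RB.Mult

/-!
# Project RU (MP_277c78_nt): `M_r(N) ≥ (⌊r/2⌋/50) log N / log log N` for every `r ≥ 2`

The base colouring of project RB (helper34) with multiplicity `2`: the digits are used for all loads
`s ≥ 2`, and they are compressed by a sum-free colouring of `ZMod q`.
-/

open Finset

namespace Pool.Agent.Helper81.RU

open Pool.Agent.Helper34.RB

section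

variable {X : Type} [LinearOrder X] {n : ℕ}

/-- the compressed digits of load `u`, if `u` is in the range `[2, TM]` -/
def Dd (h : X → Fin n) (q : ℕ → ℕ) (M : ∀ s, ℕ → Finset X → ZMod (q s))
    (Φ : ∀ s, (Fin (s - 1) → ZMod (q s)) → ℕ) (TM u : ℕ) (E : Finset X) : ℕ :=
  if u ∈ Icc 2 TM then Ds h (q u) (M u) u (Φ u) E else 0

/-- the sum of the compressed digits -/
def Dsum (h : X → Fin n) (q : ℕ → ℕ) (M : ∀ s, ℕ → Finset X → ZMod (q s))
    (Φ : ∀ s, (Fin (s - 1) → ZMod (q s)) → ℕ) (TM : ℕ) (E : Finset X) : ℕ :=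
  ∑ s ∈ Icc 2 TM, Ds h (q s) (M s) s (Φ s) E

/-- the good sets of the base colouring -/
def Good (h : X → Fin n) (N q : ℕ → ℕ) (M : ∀ s, ℕ → Finset X → ZMod (q s)) (TM : ℕ)
    (E : Finset X) : Prop :=
  (∀ t, (Bs h E t).card ≤ N t) ∧ Bs h E TM = ∅ ∧ ∀ s ∈ Icc 2 TM, NZ h (q s) (M s) s E

end

/-! ### the parameters (`m` bounds the sizes of the sets) -/

/-- the number of cells -/
def nc (m : ℕ) : ℕ := 16 * m

/-- the bound for the number of cells of load at least `t` -/
def NN (m : ℕ) : ℕ → ℕ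
  | 0 => 16 * m
  | 1 => m
  | (t + 2) => 32 * m / (8 ^ (t + 2) * (t + 2).factorial)

/-- the number of classes of the sum-free colouring used for load `s` -/
def AA (s : ℕ) : ℕ := if s ≤ 3 then 4 else s + 1

/-- `Z / (qa A)` minus `0` is a union of `A` sum-free classes -/
def qa (A : ℕ) : ℕ := (3 ^ A + 1) / 2

/-- the moduli of the digits -/
def qq (s : ℕ) : ℕ := qa (AA s)

/-- the ranges of the compressed digits -/
def RR (s : ℕ) : ℕ := AA s ^ (s - 1)

/-- the weights of the addresses -/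
def ww (t : ℕ) : ℕ := RR t + RR (t - 1) - 1

/-- the offsets of the loads -/
def CC (m : ℕ) : ℕ → ℕ
  | 0 => 0
  | 1 => RR 1 + RR 0
  | (t + 2) => CC m (t + 1) + ww (t + 1) * NN m t +
      ww (t + 2) * NN m (t + 2) + 2 * (RR (t + 1) + RR t + RR (t + 2))

/-- the number of colours -/
def KK (m : ℕ) : ℕ := 30 * m

end Pool.Agent.Helper81.RU
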