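import Pool.Agent.Helper34.RB.LoadAvg
import Pool.Agent.Helper34.RB.Avg
import Pool.Agent.Helper81.RU.Defs

/-!
# Choice of the cells of the base colouring

Variant of RB-18: `|Bs 0| ≤ 16 m`, `|Bs 1| ≤ m` always, Markov for `t ≥ 2`.
-/

open Finset

namespace Pool.Agent.Helper81.RU

open Pool.Agent.Helper34.RB

lemma NN_lt {m t : ℕ} (ht : 2 ≤ t) :
    (32 * (m : ℝ)) / (8 ^ t * t.factorial) ≤ (NN m t : ℝ) + 1 := by
  obtain ⟨u, rfl⟩ : ∃ u, t = u + 2 := ⟨t - 2, by omega⟩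
  have hb : 0 < 8 ^ (u + 2) * (u + 2).factorial := by
    have := Nat.factorial_pos (u + 2)
    positivity
  have h1 : 32 * m < (8 ^ (u + 2) * (u + 2).factorial) * (NN m (u + 2) + 1) :=
    Nat.lt_mul_div_succ _ hb
  have hb' : (0 : ℝ) < 8 ^ (u + 2) * ((u + 2).factorial : ℝ) := by exact_mod_cast hb
  rw [div_le_iff₀ hb']
  have h2 : (32 * (m : ℝ)) ≤ (8 ^ (u + 2) * ((u + 2).factorial : ℝ)) * ((NN m (u + 2) : ℝ) + 1) := by
    exact_mod_cast h1.le
  linarith

lemma avg_eq {m : ℕ} (t : ℕ) (hm : 1 ≤ m) :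
    ((nc m : ℕ) : ℝ) * ((m : ℝ) / (nc m : ℕ)) ^ t / t.factorial =
      (16 * (m : ℝ)) / (16 ^ t * t.factorial) := by
  have hm' : (0 : ℝ) < m := by exact_mod_cast hm
  have h1 : ((nc m : ℕ) : ℝ) = 16 * m := by unfold nc; push_cast; ring
  have h2 : (m : ℝ) / (16 * m) = 1 / 16 := by
    field_simp
  rw [h1, h2, div_pow, one_pow]
  have ht : (t.factorial : ℝ) ≠ 0 := by exact_mod_cast (Nat.factorial_pos t).ne'
  field_simp

/-- the function of the first moment argument -/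
noncomputable def ff {X : Type} [LinearOrder X] {n : ℕ} (m TM : ℕ) (h : X → Fin n)
    (E : Finset X) : ℝ :=
  ∑ t ∈ Icc 2 (TM - 1), ((Bs h E t).card : ℝ) / ((NN m t : ℝ) + 1) + ((Bs h E TM).card : ℝ)

lemma ff_nonneg {X : Type} [LinearOrder X] {n : ℕ} (m TM : ℕ) (h : X → Fin n)
    (E : Finset X) : 0 ≤ ff m TM h E := by
  unfold ff
  refine add_nonneg (Finset.sum_nonneg fun t _ => div_nonneg (Nat.cast_nonneg _) ?_)
    (Nat.cast_nonneg _)
  exact add_nonneg (Nat.cast_nonneg _) zero_le_one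

lemma Bs_one_card {X : Type} [LinearOrder X] {n : ℕ} (h : X → Fin n) (E : Finset X) :
    (Bs h E 1).card ≤ E.card := by
  classical
  have h1 : Bs h E 1 ⊆ E.image h := by
    intro b hb
    rw [mem_Bs] at hb
    obtain ⟨x, hx, hxb, -⟩ := exists_rk (h := h) (E := E) (b := b) (i := 0) (by omega)
    exact mem_image.mpr ⟨x, hx, hxb⟩
  exact (card_le_card h1).trans card_image_le

lemma ff_bad {X : Type} [LinearOrder X] {m TM : ℕ}
    (h : X → Fin (nc m)) (E : Finset X) (hE : E.card ≤ m)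
    (hbad : ¬ ((∀ t, (Bs h E t).card ≤ NN m t) ∧ Bs h E TM = ∅)) : 1 ≤ ff m TM h E := by
  have hpos : ∀ t, (0 : ℝ) ≤ ((Bs h E t).card : ℝ) / ((NN m t : ℝ) + 1) := fun t =>
    div_nonneg (Nat.cast_nonneg _) (add_nonneg (Nat.cast_nonneg _) zero_le_one)
  by_cases hT : Bs h E TM = ∅
  · have h1 : ∃ t, NN m t < (Bs h E t).card := by
      by_contra hcon
      push Not at hcon
      exact hbad ⟨hcon, hT⟩
    obtain ⟨t, ht⟩ := h1
    have ht0 : t ≠ 0 := by
      rintro rfl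
      have h2 : (Bs h E 0).card ≤ nc m := by
        refine (Finset.card_le_univ _).trans ?_
        rw [Fintype.card_fin]
      exact absurd (lt_of_lt_of_le ht h2) (lt_irrefl _)
    have ht1 : t ≠ 1 := by
      rintro rfl
      exact absurd (lt_of_lt_of_le ht ((Bs_one_card h E).trans hE)) (lt_irrefl _)
    have htT : t < TM := by
      by_contra hcon
      push Not at hcon
      have h2 : Bs h E t ⊆ Bs h E TM := Bs_anti hcon
      rw [hT] at h2
      rw [Finset.subset_empty.1 h2, Finset.card_empty] at ht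
      exact absurd ht (Nat.not_lt_zero _)
    have hmem : t ∈ Icc 2 (TM - 1) := by
      rw [Finset.mem_Icc]
      omega
    have h5 : (1 : ℝ) ≤ ((Bs h E t).card : ℝ) / ((NN m t : ℝ) + 1) := by
      rw [le_div_iff₀ (add_pos_of_nonneg_of_pos (Nat.cast_nonneg _) one_pos), one_mul]
      exact_mod_cast ht
    have h6 : ((Bs h E t).card : ℝ) / ((NN m t : ℝ) + 1) ≤
        ∑ t ∈ Icc 2 (TM - 1), ((Bs h E t).card : ℝ) / ((NN m t : ℝ) + 1) :=
      Finset.single_le_sum (f := fun t => ((Bs h E t).card : ℝ) / ((NN m t : ℝ) + 1))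
        (fun t _ => hpos t) hmem
    have h7 : (0 : ℝ) ≤ ((Bs h E TM).card : ℝ) := Nat.cast_nonneg _
    unfold ff
    linarith
  · have h1 : 1 ≤ (Bs h E TM).card := Finset.card_pos.2 (Finset.nonempty_iff_ne_empty.2 hT)
    have h2 : (1 : ℝ) ≤ ((Bs h E TM).card : ℝ) := by exact_mod_cast h1
    have h3 : 0 ≤ ∑ t ∈ Icc 2 (TM - 1), ((Bs h E t).card : ℝ) / ((NN m t : ℝ) + 1) :=
      Finset.sum_nonneg fun t _ => hpos t
    unfold ff
    linarith

lemma sum_half (K : ℕ) : ∑ t ∈ Icc 2 K, (1 / 2 : ℝ) ^ (t + 1) ≤ 1 / 4 := by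
  have h : ∀ K : ℕ, 1 ≤ K → ∑ t ∈ Icc 2 K, (1 / 2 : ℝ) ^ (t + 1) = 1 / 4 - (1 / 2) ^ (K + 1) := by
    intro K hK
    induction K, hK using Nat.le_induction with
    | base => norm_num
    | succ K hK ih =>
      rw [Finset.sum_Icc_succ_top (by omega), ih, pow_succ (1 / 2 : ℝ) (K + 1)]
      ring
  rcases Nat.eq_zero_or_pos K with h0 | h0
  · rw [h0, Finset.Icc_eq_empty (by omega), Finset.sum_empty]
    norm_num
  · rw [h K h0]
    have : (0 : ℝ) ≤ (1 / 2) ^ (K + 1) := by positivity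
    linarith

lemma ff_sum {X : Type} [LinearOrder X] [Fintype X] {m TM : ℕ}
    (hm : 1 ≤ m) (E : Finset X) (hE : E.card ≤ m)
    (hTM : 1600 * m ≤ 16 ^ TM * TM.factorial) :
    ∑ h : X → Fin (nc m), ff m TM h E ≤
      (Fintype.card (X → Fin (nc m)) : ℝ) * (13 / 50) := by
  have hn : 0 < nc m := by unfold nc; omega
  have hm' : (0 : ℝ) < m := by exact_mod_cast hm
  have hL := load_avg (n := nc m) hn E hE
  generalize hN : (Fintype.card (X → Fin (nc m)) : ℝ) = N at hL ⊢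
  have hN0 : 0 ≤ N := by rw [← hN]; exact Nat.cast_nonneg _
  have e1 : ∑ h : X → Fin (nc m), ff m TM h E = ∑ t ∈ Icc 2 (TM - 1),
      (∑ h : X → Fin (nc m), ((Bs h E t).card : ℝ)) / ((NN m t : ℝ) + 1) +
      ∑ h : X → Fin (nc m), ((Bs h E TM).card : ℝ) := by
    unfold ff
    rw [Finset.sum_add_distrib, Finset.sum_comm]
    congr 1
    refine Finset.sum_congr rfl fun t _ => ?_
    rw [Finset.sum_div]
  have e2 : ∀ t ∈ Icc 2 (TM - 1),
      (∑ h : X → Fin (nc m), ((Bs h E t).card : ℝ)) / ((NN m t : ℝ) + 1) ≤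
      N * (1 / 2 : ℝ) ^ (t + 1) := by
    intro t ht
    rw [mem_Icc] at ht
    have h1 := hL t
    rw [avg_eq t hm] at h1
    have h2 := NN_lt (m := m) ht.1
    have h4 : (0 : ℝ) < (NN m t : ℝ) + 1 := add_pos_of_nonneg_of_pos (Nat.cast_nonneg _) one_pos
    rw [div_le_iff₀ h4]
    refine h1.trans ?_
    have h5 : N * ((16 * (m : ℝ)) / (16 ^ t * t.factorial)) =
        N * (1 / 2 : ℝ) ^ (t + 1) * ((32 * (m : ℝ)) / (8 ^ t * t.factorial)) := by
      have ht : (t.factorial : ℝ) ≠ 0 := by exact_mod_cast (Nat.factorial_pos t).ne'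
      have h6 : (16 : ℝ) ^ t = 2 ^ t * 8 ^ t := by rw [← mul_pow]; norm_num
      rw [h6, div_pow, one_pow, pow_succ]
      generalize (t.factorial : ℝ) = u at ht
      field_simp
      ring
    rw [h5]
    exact mul_le_mul_of_nonneg_left h2 (mul_nonneg hN0 (pow_nonneg (by norm_num) _))
  have e3 : ∑ h : X → Fin (nc m), ((Bs h E TM).card : ℝ) ≤ N * (1 / 100) := by
    have h1 := hL TM
    rw [avg_eq TM hm] at h1
    refine h1.trans ?_
    have hD : (0 : ℝ) < 16 ^ TM * TM.factorial := by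
      have ht : (0 : ℝ) < TM.factorial := by exact_mod_cast Nat.factorial_pos TM
      exact mul_pos (pow_pos (by norm_num) _) ht
    have h2 : (1600 * (m : ℝ)) ≤ 16 ^ TM * TM.factorial := by
      exact_mod_cast hTM
    apply mul_le_mul_of_nonneg_left _ hN0
    rw [div_le_div_iff₀ hD (by norm_num)]
    linarith
  rw [e1]
  calc _ ≤ ∑ t ∈ Icc 2 (TM - 1), N * (1 / 2 : ℝ) ^ (t + 1) + N * (1 / 100) :=
        add_le_add (Finset.sum_le_sum e2) e3
    _ = N * (∑ t ∈ Icc 2 (TM - 1), (1 / 2 : ℝ) ^ (t + 1)) + N * (1 / 100) := by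
        rw [← Finset.mul_sum]
    _ ≤ N * (1 / 4) + N * (1 / 100) :=
        add_le_add (mul_le_mul_of_nonneg_left (sum_half _) hN0) le_rfl
    _ = N * (13 / 50) := by ring

open Classical in
theorem chooseH {X ι : Type} [LinearOrder X] [Fintype X] (I : Finset ι) (S : ι → Finset X)
    (w : ι → ℝ) (hw : ∀ i ∈ I, 0 ≤ w i) {m TM : ℕ} (hm : 1 ≤ m)
    (hS : ∀ i ∈ I, (S i).card ≤ m) (hTM : 1600 * m ≤ 16 ^ TM * TM.factorial) :
    ∃ h : X → Fin (nc m), ∑ i ∈ I.filter (fun i =>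
      ¬ ((∀ t, (Bs h (S i) t).card ≤ NN m t) ∧ Bs h (S i) TM = ∅)), w i ≤
        13 / 50 * ∑ i ∈ I, w i := by
  have hn : 0 < nc m := by unfold nc; omega
  have : Nonempty (X → Fin (nc m)) := ⟨fun _ => ⟨0, hn⟩⟩
  obtain ⟨h, hh⟩ := exists_avg I w hw (fun (h : X → Fin (nc m)) i => ff m TM h (S i)) (13 / 50)
    (fun i hi => ff_sum hm (S i) (hS i hi) hTM)
  refine ⟨h, ?_⟩
  refine (sum_filter_le I w hw _ (fun i => ff m TM h (S i)) (fun i _ => ff_nonneg _ _ _ _)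
    ?_).trans hh
  intro i hi hbad
  exact ff_bad h (S i) (hS i hi) hbad

end Pool.Agent.Helper81.RU
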