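import Pool.Agent.Helper34.RB.ChooseM
import Pool.Agent.Helper81.RU.Defs

/-!
# Choice of the digit functions

Variant of RB-19 with the moduli `qq s = (3 ^ AA s + 1) / 2`, `s ≥ 2`; the loss is at most `3 / 25`.
-/

open Finset

namespace Pool.Agent.Helper81.RU

open Pool.Agent.Helper34.RB hiding Dd Dsum Good qq

lemma qa_pos (A : ℕ) : 0 < qa A := by
  unfold qa
  have : 1 ≤ 3 ^ A := Nat.one_le_pow _ _ (by norm_num)
  omega

lemma qa_lb (A : ℕ) : (3 : ℝ) ^ A / 2 ≤ (qa A : ℝ) := by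
  have h : 3 ^ A ≤ 2 * qa A := by
    unfold qa
    have h2 : 3 ^ A % 2 = 1 := by
      rw [Nat.pow_mod]
      simp
    omega
  have h1 : (3 : ℝ) ^ A ≤ 2 * (qa A : ℝ) := by exact_mod_cast h
  linarith

lemma dig_sum (T : ℕ) :
    ∑ s ∈ Icc 2 T, ((s - 1 : ℕ) : ℝ) / (qq s : ℝ) ≤ 3 / 25 := by
  have h : ∀ T : ℕ, 3 ≤ T → ∑ s ∈ Icc 2 T, ((s - 1 : ℕ) : ℝ) / (qq s : ℝ) ≤
      3 / 41 + 7 / 162 - ((T : ℝ) + 1 / 2) / 3 ^ (T + 1) := by
    intro T hT
    induction T, hT using Nat.le_induction with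
    | base =>
      have h1 : qq 2 = 41 := by decide
      have h2 : qq 3 = 41 := by decide
      have h3 : Icc 2 3 = ({2, 3} : Finset ℕ) := by decide
      rw [h3, Finset.sum_pair (by norm_num), h1, h2]
      norm_num
    | succ T hT ih =>
      rw [Finset.sum_Icc_succ_top (by omega)]
      have hq : qq (T + 1) = qa (T + 2) := by
        unfold qq AA
        rw [if_neg (by omega)]
      have hlb := qa_lb (T + 2)
      have h3 : (0 : ℝ) < 3 ^ (T + 2) := by positivity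
      have h4 : ((T + 1 - 1 : ℕ) : ℝ) / (qq (T + 1) : ℝ) ≤ 2 * (T : ℝ) / 3 ^ (T + 2) := by
        rw [hq, Nat.add_sub_cancel]
        have h5 : (0 : ℝ) < (qa (T + 2) : ℝ) := by exact_mod_cast qa_pos _
        rw [div_le_div_iff₀ h5 h3]
        have h6 : (0 : ℝ) ≤ T := Nat.cast_nonneg T
        nlinarith
      have h7 : ((T : ℝ) + 1 / 2) / 3 ^ (T + 1) - (((T + 1 : ℕ) : ℝ) + 1 / 2) / 3 ^ (T + 1 + 1) =
          2 * (T : ℝ) / 3 ^ (T + 2) := by
        push_cast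
        rw [pow_succ (3 : ℝ) (T + 1)]
        field_simp
        ring
      linarith
  rcases le_or_gt 3 T with hT | hT
  · refine (h T hT).trans ?_
    have : (0 : ℝ) ≤ ((T : ℝ) + 1 / 2) / 3 ^ (T + 1) := by positivity
    linarith
  · refine le_trans ?_ ((h 3 le_rfl).trans ?_)
    · apply Finset.sum_le_sum_of_subset_of_nonneg
      · exact Finset.Icc_subset_Icc le_rfl (by omega)
      · intro s _ _
        positivity
    · norm_num

open Classical in
theorem chooseM {X ι : Type} [LinearOrder X] [Fintype X] {n : ℕ} (h : X → Fin n) (I : Finset ι)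
    (S : ι → Finset X) (w : ι → ℝ) (hw : ∀ i ∈ I, 0 ≤ w i) (TM : ℕ) :
    ∃ M : ∀ s, ℕ → Finset X → ZMod (qq s),
      ∑ i ∈ I.filter (fun i => ¬ ∀ s ∈ Icc 2 TM, NZ h (qq s) (M s) s (S i)), w i ≤
        3 / 25 * ∑ i ∈ I, w i := by
  have hW : 0 ≤ ∑ i ∈ I, w i := Finset.sum_nonneg hw
  have key : ∀ s j : ℕ, ∃ M : Finset X → ZMod (qq s), 1 ≤ j → j < s →
      ∑ i ∈ I.filter (fun i => dg h (qq s) M s j (S i) = 0), w i ≤
        1 / (qq s : ℝ) * ∑ i ∈ I, w i := by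
    intro s j
    by_cases hc : 1 ≤ j ∧ j < s
    · have : NeZero (qq s) := ⟨(qa_pos _).ne'⟩
      obtain ⟨M, hM⟩ := chooseM1 h I S w hw (q := qq s) hc.1 hc.2
      exact ⟨M, fun _ _ => hM⟩
    · exact ⟨0, fun h1 h2 => absurd ⟨h1, h2⟩ hc⟩
  choose M hM using key
  refine ⟨M, ?_⟩
  have h1 := sum_filter_le I w hw (fun i => ¬ ∀ s ∈ Icc 2 TM, NZ h (qq s) (M s) s (S i))
    (fun i => ∑ s ∈ Icc 2 TM, ∑ j ∈ Icc 1 (s - 1),
      if dg h (qq s) (M s j) s j (S i) = 0 then (1 : ℝ) else 0)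
    (fun i _ => Finset.sum_nonneg fun s _ => Finset.sum_nonneg fun j _ => by
      split_ifs <;> norm_num)
    (by
      intro i _ hi
      push Not at hi
      obtain ⟨s, hs, hns⟩ := hi
      unfold NZ at hns
      push Not at hns
      obtain ⟨-, j, hj⟩ := hns
      have hj2 := j.2
      have hjm : (j : ℕ) + 1 ∈ Icc 1 (s - 1) := by
        rw [mem_Icc]
        omega
      have a1 : (1 : ℝ) ≤ ∑ j ∈ Icc 1 (s - 1),
          if dg h (qq s) (M s j) s j (S i) = 0 then (1 : ℝ) else 0 := by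
        refine le_trans (le_of_eq ?_) (Finset.single_le_sum (f := fun j =>
          if dg h (qq s) (M s j) s j (S i) = 0 then (1 : ℝ) else 0) (fun j _ => by
            split_ifs <;> norm_num) hjm)
        rw [if_pos]
        exact hj
      exact a1.trans (Finset.single_le_sum (f := fun s => ∑ j ∈ Icc 1 (s - 1),
          if dg h (qq s) (M s j) s j (S i) = 0 then (1 : ℝ) else 0) (fun s _ =>
            Finset.sum_nonneg fun j _ => by split_ifs <;> norm_num) hs))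
  have h2 : ∑ i ∈ I, w i * (∑ s ∈ Icc 2 TM, ∑ j ∈ Icc 1 (s - 1),
      if dg h (qq s) (M s j) s j (S i) = 0 then (1 : ℝ) else 0) =
      ∑ s ∈ Icc 2 TM, ∑ j ∈ Icc 1 (s - 1),
        ∑ i ∈ I.filter (fun i => dg h (qq s) (M s j) s j (S i) = 0), w i := by
    simp_rw [Finset.mul_sum]
    rw [Finset.sum_comm]
    refine Finset.sum_congr rfl fun s _ => ?_
    rw [Finset.sum_comm]
    refine Finset.sum_congr rfl fun j _ => ?_
    rw [Finset.sum_filter]
    refine Finset.sum_congr rfl fun i _ => ?_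
    split_ifs <;> simp
  have h3 : ∑ s ∈ Icc 2 TM, ∑ j ∈ Icc 1 (s - 1),
        ∑ i ∈ I.filter (fun i => dg h (qq s) (M s j) s j (S i) = 0), w i ≤
      ∑ s ∈ Icc 2 TM, (((s - 1 : ℕ) : ℝ) / (qq s : ℝ)) * ∑ i ∈ I, w i := by
    refine Finset.sum_le_sum fun s hs => ?_
    calc ∑ j ∈ Icc 1 (s - 1),
        ∑ i ∈ I.filter (fun i => dg h (qq s) (M s j) s j (S i) = 0), w i
        ≤ ∑ j ∈ Icc 1 (s - 1), 1 / (qq s : ℝ) * ∑ i ∈ I, w i := by
          refine Finset.sum_le_sum fun j hj => ?_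
          rw [mem_Icc] at hj
          exact hM s j hj.1 (by omega)
      _ = ((s - 1 : ℕ) : ℝ) * (1 / (qq s : ℝ) * ∑ i ∈ I, w i) := by
          rw [Finset.sum_const, Nat.card_Icc, nsmul_eq_mul, Nat.add_sub_cancel]
      _ = (((s - 1 : ℕ) : ℝ) / (qq s : ℝ)) * ∑ i ∈ I, w i := by ring
  rw [← Finset.sum_mul] at h3
  have h8 : (∑ s ∈ Icc 2 TM, ((s - 1 : ℕ) : ℝ) / (qq s : ℝ)) * ∑ i ∈ I, w i ≤
      3 / 25 * ∑ i ∈ I, w i := mul_le_mul_of_nonneg_right (dig_sum TM) hW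
  rw [h2] at h1
  refine le_trans (le_of_eq ?_) (h1.trans (h3.trans h8))
  congr

end Pool.Agent.Helper81.RU
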