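import Pool.Agent.Helper81.RU.Defs

/-!
# The range of the base colouring

`CC m (TM + 1) ≤ 30 m` for `m ≥ 10 ^ 100` and `TM` minimal with `1600 m ≤ 16 ^ TM * TM!`.
-/

namespace Pool.Agent.Helper81.RU

lemma RR_pos (s : ℕ) : 1 ≤ RR s := by
  unfold RR AA
  apply Nat.one_le_pow
  split_ifs <;> omega

lemma RR_of {s : ℕ} (hs : 4 ≤ s) : RR s = (s + 1) ^ (s - 1) := by
  unfold RR AA
  rw [if_neg (by omega)]

lemma CC_succ (m : ℕ) {t : ℕ} (ht : 1 ≤ t) :
    CC m (t + 1) = CC m t + ww t * NN m (t - 1) +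
      ww (t + 1) * NN m (t + 1) + 2 * (RR t + RR (t - 1) + RR (t + 1)) := by
  obtain ⟨u, rfl⟩ := Nat.exists_eq_add_of_le ht
  rw [add_comm 1 u]
  rfl

/-- the ranges increase by a factor of at most `3 t` -/
lemma RR_step {t : ℕ} (ht : 4 ≤ t) : RR (t + 1) ≤ 3 * t * RR t := by
  have h0 : (4 : ℝ) ≤ t := by exact_mod_cast ht
  rw [RR_of (by omega), RR_of ht, Nat.add_sub_cancel]
  -- `(1 + 1 / (t + 1)) ^ (t + 1) ≤ e`
  have h1 : (1 + 1 / ((t : ℝ) + 1)) ^ (t + 1) ≤ Real.exp 1 := by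
    have h2 : 1 + 1 / ((t : ℝ) + 1) ≤ Real.exp (1 / ((t : ℝ) + 1)) := by
      have := Real.add_one_le_exp (1 / ((t : ℝ) + 1))
      linarith
    have h3 : (1 + 1 / ((t : ℝ) + 1)) ^ (t + 1) ≤ Real.exp (1 / ((t : ℝ) + 1)) ^ (t + 1) :=
      pow_le_pow_left₀ (by positivity) h2 _
    have h4 : Real.exp (1 / ((t : ℝ) + 1)) ^ (t + 1) = Real.exp 1 := by
      rw [← Real.exp_nat_mul]
      congr 1
      push_cast
      field_simp
    rw [h4] at h3
    exact h3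
  have h5 := Real.exp_one_lt_d9
  have h6 : ((t : ℝ) + 2) ^ (t + 1) ≤ 2.7182818286 * ((t : ℝ) + 1) ^ (t + 1) := by
    have h7 : ((t : ℝ) + 2) ^ (t + 1) = (1 + 1 / ((t : ℝ) + 1)) ^ (t + 1) * ((t : ℝ) + 1) ^ (t + 1) := by
      rw [← mul_pow]
      congr 1
      field_simp
      ring
    rw [h7]
    exact mul_le_mul_of_nonneg_right (h1.trans h5.le) (by positivity)
  have h8 : ((t : ℝ) + 2) ^ t ≤ 3 * t * ((t : ℝ) + 1) ^ (t - 1) := by
    have h9 : ((t : ℝ) + 1) ^ (t + 1) = ((t : ℝ) + 1) ^ (t - 1) * ((t : ℝ) + 1) ^ 2 := by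
      rw [← pow_add]
      congr 1
      omega
    rw [pow_succ, h9] at h6
    have h10 : (0 : ℝ) < ((t : ℝ) + 1) ^ (t - 1) := by positivity
    have h11 : 2.7182818286 * ((t : ℝ) + 1) ^ 2 ≤ 3 * t * ((t : ℝ) + 2) := by nlinarith
    have h12 : 2.7182818286 * (((t : ℝ) + 1) ^ (t - 1) * ((t : ℝ) + 1) ^ 2) ≤
        (3 * t * ((t : ℝ) + 1) ^ (t - 1)) * ((t : ℝ) + 2) := by
      have := mul_le_mul_of_nonneg_right h11 h10.le
      linarith
    exact le_of_mul_le_mul_right (h6.trans h12) (by linarith)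
  exact_mod_cast h8

/-- Lemma A: `RR t ≤ (125 / 486) 3 ^ t (t - 1)!` for `t ≥ 4` -/
lemma RR_fac {t : ℕ} (ht : 4 ≤ t) : 486 * RR t ≤ 125 * 3 ^ t * (t - 1).factorial := by
  induction t, ht using Nat.le_induction with
  | base =>
    have h1 : RR 4 = 125 := by decide
    rw [h1]
    norm_num [Nat.factorial]
  | succ t ht ih =>
    obtain ⟨u, rfl⟩ : ∃ u, t = u + 1 := ⟨t - 1, by omega⟩
    have h1 := RR_step ht
    simp only [Nat.add_sub_cancel] at ih ⊢
    rw [Nat.factorial_succ u, pow_succ]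
    calc 486 * RR (u + 1 + 1) ≤ 486 * (3 * (u + 1) * RR (u + 1)) := Nat.mul_le_mul_left _ h1
      _ = 3 * (u + 1) * (486 * RR (u + 1)) := by ring
      _ ≤ 3 * (u + 1) * (125 * 3 ^ (u + 1) * u.factorial) := Nat.mul_le_mul_left _ ih
      _ = 125 * (3 ^ (u + 1) * 3) * ((u + 1) * u.factorial) := by ring

lemma RR_mono_succ {t : ℕ} (ht : 4 ≤ t) : RR t ≤ RR (t + 1) := by
  rw [RR_of ht, RR_of (by omega)]
  calc (t + 1) ^ (t - 1) ≤ (t + 1 + 1) ^ (t - 1) := Nat.pow_le_pow_left (by omega) _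
    _ ≤ (t + 1 + 1) ^ (t + 1 - 1) := Nat.pow_le_pow_right (by omega) (by omega)

lemma RR_mono {t u : ℕ} (ht : 4 ≤ t) (htu : t ≤ u) : RR t ≤ RR u := by
  induction u, htu using Nat.le_induction with
  | base => exact le_rfl
  | succ u hu ih => exact ih.trans (RR_mono_succ (by omega))

lemma RR_34 : RR 3 ≤ RR 4 := by decide

/-- `t 3 ^ t ≤ 4 ^ t` for `t ≥ 9` -/
lemma t_pow {t : ℕ} (ht : 9 ≤ t) : t * 3 ^ t ≤ 4 ^ t := by
  induction t, ht using Nat.le_induction with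
  | base => norm_num
  | succ t ht ih =>
    have h1 : 3 * (t + 1) ≤ 4 * t := by omega
    calc (t + 1) * 3 ^ (t + 1) = (3 * (t + 1)) * 3 ^ t := by ring
      _ ≤ (4 * t) * 3 ^ t := Nat.mul_le_mul_right _ h1
      _ = 4 * (t * 3 ^ t) := by ring
      _ ≤ 4 * 4 ^ t := Nat.mul_le_mul_left _ ih
      _ = 4 ^ (t + 1) := by ring

/-- the boundary terms are small: `6 RR (t + 1) ≤ m / (4 * 2 ^ t)` -/
lemma RR_small {m t : ℕ} (hm : 10 ^ 40 ≤ m) (ht : 4 ≤ t)
    (h : 16 ^ (t - 1) * (t - 1).factorial < 1600 * m) :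
    6 * RR (t + 1) * (4 * 2 ^ t) ≤ m := by
  rcases le_or_gt t 20 with h5 | h5
  · have h1 : RR (t + 1) ≤ RR 21 := RR_mono (by omega) (by omega)
    have h2 : 2 ^ t ≤ 2 ^ 20 := Nat.pow_le_pow_right (by norm_num) h5
    have h3 : RR 21 = 22 ^ 20 := RR_of (by norm_num)
    calc 6 * RR (t + 1) * (4 * 2 ^ t) ≤ 6 * (22 ^ 20) * (4 * 2 ^ 20) := by
          rw [← h3]
          gcongr
      _ ≤ 10 ^ 40 := by norm_num
      _ ≤ m := hm
  · obtain ⟨u, rfl⟩ : ∃ u, t = u + 1 := ⟨t - 1, by omega⟩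
    rw [Nat.add_sub_cancel] at h
    have h1 := RR_fac (t := u + 1 + 1) (by omega)
    rw [Nat.add_sub_cancel, Nat.factorial_succ u] at h1
    have h2 := t_pow (t := u + 1) (by omega)
    have h3 : 2 ^ 21 ≤ 2 ^ (u + 1) := Nat.pow_le_pow_right (by norm_num) (by omega)
    have h4 : 0 < 486 * 16 ^ u := by positivity
    refine Nat.le_of_mul_le_mul_left ?_ h4
    have e1 : (16 : ℕ) ^ u * 16 = 2 ^ (u + 1) * (2 ^ (u + 1) * 4 ^ (u + 1)) := by
      rw [← pow_succ, ← mul_pow, ← mul_pow]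
      norm_num
    calc 486 * 16 ^ u * (6 * RR (u + 1 + 1) * (4 * 2 ^ (u + 1)))
        = (24 * 16 ^ u * 2 ^ (u + 1)) * (486 * RR (u + 1 + 1)) := by ring
      _ ≤ (24 * 16 ^ u * 2 ^ (u + 1)) * (125 * 3 ^ (u + 1 + 1) * ((u + 1) * u.factorial)) :=
          Nat.mul_le_mul_left _ h1
      _ = 9000 * 2 ^ (u + 1) * ((u + 1) * 3 ^ (u + 1)) * (16 ^ u * u.factorial) := by ring
      _ ≤ 9000 * 2 ^ (u + 1) * 4 ^ (u + 1) * (1600 * m) := by gcongr
      _ = 14400000 * (2 ^ (u + 1) * 4 ^ (u + 1)) * m := by ring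
      _ ≤ (486 * 2 ^ 21 / 16) * (2 ^ (u + 1) * 4 ^ (u + 1)) * m := by
          gcongr
          norm_num
      _ ≤ 486 * 16 ^ u * m := by
          apply Nat.mul_le_mul_right
          have e2 : 16 * ((486 * 2 ^ 21 / 16) * (2 ^ (u + 1) * 4 ^ (u + 1))) ≤
              16 * (486 * 16 ^ u) := by
            calc 16 * ((486 * 2 ^ 21 / 16) * (2 ^ (u + 1) * 4 ^ (u + 1)))
                = 486 * 2 ^ 21 * (2 ^ (u + 1) * 4 ^ (u + 1)) := by
                  norm_num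
                  ring
              _ ≤ 486 * 2 ^ (u + 1) * (2 ^ (u + 1) * 4 ^ (u + 1)) := by gcongr
              _ = 486 * (16 ^ u * 16) := by rw [e1]; ring
              _ = 16 * (486 * 16 ^ u) := by ring
          omega

lemma NN_le {m t : ℕ} (ht : 2 ≤ t) :
    (NN m t : ℝ) ≤ (32 * (m : ℝ)) / (8 ^ t * t.factorial) := by
  obtain ⟨u, rfl⟩ : ∃ u, t = u + 2 := ⟨t - 2, by omega⟩
  have h : NN m (u + 2) = 32 * m / (8 ^ (u + 2) * (u + 2).factorial) := rfl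
  rw [h]
  refine (Nat.cast_div_le).trans (le_of_eq ?_)
  push_cast
  rfl

lemma ww_le {t : ℕ} (ht : 5 ≤ t) : ww t ≤ 2 * RR t := by
  unfold ww
  have h := RR_mono_succ (t := t - 1) (by omega)
  rw [Nat.sub_add_cancel (by omega)] at h
  omega

/-- one step, `t = a + 5` -/
lemma step {m a : ℕ} (hm : 10 ^ 40 ≤ m)
    (h : 16 ^ (a + 4) * (a + 4).factorial < 1600 * m) :
    ((ww (a + 5) * NN m (a + 4) + ww (a + 6) * NN m (a + 6) +
      2 * (RR (a + 5) + RR (a + 4) + RR (a + 6)) : ℕ) : ℝ) ≤ 36 * (m : ℝ) / 2 ^ (a + 5) := by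
  have hm0 : (0 : ℝ) ≤ m := Nat.cast_nonneg m
  have f4 : (0 : ℝ) < ((a + 4).factorial : ℝ) := by exact_mod_cast Nat.factorial_pos _
  have f5 : (((a + 5).factorial : ℕ) : ℝ) = ((a : ℝ) + 5) * ((a + 4).factorial : ℝ) := by
    rw [Nat.factorial_succ]; push_cast; ring
  have f6 : (((a + 6).factorial : ℕ) : ℝ) = ((a : ℝ) + 6) * (((a : ℝ) + 5) * ((a + 4).factorial : ℝ)) := by
    rw [Nat.factorial_succ, Nat.factorial_succ]; push_cast; ring
  have ha : (0 : ℝ) ≤ a := Nat.cast_nonneg a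
  -- the ranges
  have r5 : (RR (a + 5) : ℝ) ≤ 125 / 486 * 3 ^ (a + 5) * ((a + 4).factorial : ℝ) := by
    have h1 := RR_fac (t := a + 5) (by omega)
    have h2 : (486 : ℝ) * (RR (a + 5) : ℝ) ≤ 125 * 3 ^ (a + 5) * ((a + 4).factorial : ℝ) := by
      exact_mod_cast h1
    linarith
  have r6 : (RR (a + 6) : ℝ) ≤ 125 / 486 * 3 ^ (a + 6) * (((a : ℝ) + 5) * ((a + 4).factorial : ℝ)) := by
    have h1 := RR_fac (t := a + 6) (by omega)
    have h2 : (486 : ℝ) * (RR (a + 6) : ℝ) ≤ 125 * 3 ^ (a + 6) * ((a + 5).factorial : ℝ) := by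
      exact_mod_cast h1
    rw [f5] at h2
    linarith
  have w5 : (ww (a + 5) : ℝ) ≤ 2 * (125 / 486 * 3 ^ (a + 5) * ((a + 4).factorial : ℝ)) := by
    have h1 : (ww (a + 5) : ℝ) ≤ 2 * (RR (a + 5) : ℝ) := by exact_mod_cast ww_le (by omega)
    linarith
  have w6 : (ww (a + 6) : ℝ) ≤
      2 * (125 / 486 * 3 ^ (a + 6) * (((a : ℝ) + 5) * ((a + 4).factorial : ℝ))) := by
    have h1 : (ww (a + 6) : ℝ) ≤ 2 * (RR (a + 6) : ℝ) := by exact_mod_cast ww_le (by omega)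
    linarith
  have n4 := NN_le (m := m) (t := a + 4) (by omega)
  have n6 := NN_le (m := m) (t := a + 6) (by omega)
  rw [f6] at n6
  have hq : (3 / 8 : ℝ) ^ a ≤ (1 / 2) ^ a := pow_le_pow_left₀ (by norm_num) (by norm_num) a
  -- the first term
  have t1 : (ww (a + 5) : ℝ) * (NN m (a + 4) : ℝ) ≤ (64000 / 486) * (3 / 8) ^ 5 * (m * (1 / 2) ^ a) := by
    calc (ww (a + 5) : ℝ) * (NN m (a + 4) : ℝ)
        ≤ (2 * (125 / 486 * 3 ^ (a + 5) * ((a + 4).factorial : ℝ))) *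
          ((32 * (m : ℝ)) / (8 ^ (a + 4) * ((a + 4).factorial : ℝ))) :=
          mul_le_mul w5 n4 (Nat.cast_nonneg _) (by positivity)
      _ = (64000 / 486) * (3 / 8) ^ 5 * (m * (3 / 8) ^ a) := by
          rw [div_pow (3 : ℝ) 8 a, pow_add (3 : ℝ) a 5, pow_add (8 : ℝ) a 4]
          field_simp
          ring
      _ ≤ _ := by gcongr
  have t2 : (ww (a + 6) : ℝ) * (NN m (a + 6) : ℝ) ≤ (8000 / 486) * (3 / 8) ^ 6 * (m * (1 / 2) ^ a) := by
    calc (ww (a + 6) : ℝ) * (NN m (a + 6) : ℝ)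
        ≤ (2 * (125 / 486 * 3 ^ (a + 6) * (((a : ℝ) + 5) * ((a + 4).factorial : ℝ)))) *
          ((32 * (m : ℝ)) / (8 ^ (a + 6) * (((a : ℝ) + 6) * (((a : ℝ) + 5) *
            ((a + 4).factorial : ℝ))))) :=
          mul_le_mul w6 n6 (Nat.cast_nonneg _) (by positivity)
      _ = (8000 / 486) * (3 / 8) ^ 6 * (m * (3 / 8) ^ a) * (1 / ((a : ℝ) + 6)) := by
          rw [div_pow (3 : ℝ) 8 a, pow_add (3 : ℝ) a 6, pow_add (8 : ℝ) a 6]
          field_simp
          ring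
      _ ≤ (8000 / 486) * (3 / 8) ^ 6 * (m * (3 / 8) ^ a) * 1 := by
          apply mul_le_mul_of_nonneg_left _ (by positivity)
          rw [div_le_one (by linarith)]
          linarith
      _ ≤ _ := by
          rw [mul_one]
          gcongr
  have t3 : (2 : ℝ) * (RR (a + 5) + RR (a + 4) + RR (a + 6)) ≤ 1 / 128 * (m * (1 / 2) ^ a) := by
    have h1 := RR_small (m := m) (t := a + 5) hm (by omega) (by simpa using h)
    have h2 : RR (a + 4) ≤ RR (a + 6) := RR_mono (by omega) (by omega)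
    have h3 : RR (a + 5) ≤ RR (a + 6) := RR_mono (by omega) (by omega)
    have h4 : (6 : ℝ) * (RR (a + 6) : ℝ) * (4 * 2 ^ (a + 5)) ≤ m := by exact_mod_cast h1
    have h5 : (RR (a + 4) : ℝ) ≤ RR (a + 6) := by exact_mod_cast h2
    have h6 : (RR (a + 5) : ℝ) ≤ RR (a + 6) := by exact_mod_cast h3
    have h7 : (6 : ℝ) * (RR (a + 6) : ℝ) ≤ 1 / 128 * (m * (1 / 2) ^ a) := by
      have h8 : (0 : ℝ) < 4 * 2 ^ (a + 5) := by positivity
      rw [← le_div_iff₀ h8] at h4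
      refine h4.trans (le_of_eq ?_)
      rw [div_pow, one_pow, pow_add (2 : ℝ) a 5]
      field_simp
      norm_num
    linarith
  have e : 36 * (m : ℝ) / 2 ^ (a + 5) = 9 / 8 * (m * (1 / 2) ^ a) := by
    rw [div_pow, one_pow, pow_add (2 : ℝ) a 5]
    field_simp
    norm_num
  rw [e]
  have hz : (0 : ℝ) ≤ m * (1 / 2) ^ a := by positivity
  push_cast
  have hn : (64000 / 486 : ℝ) * (3 / 8) ^ 5 + (8000 / 486) * (3 / 8) ^ 6 + 1 / 128 ≤ 9 / 8 := by
    norm_num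
  have h9 := mul_le_mul_of_nonneg_right hn hz
  linarith

lemma CC_five {m : ℕ} (hm : 10 ^ 40 ≤ m) : 4 * CC m 5 ≤ 111 * m := by
  have c1 : CC m 1 = 2 := by unfold CC; decide
  have c2 := CC_succ m (t := 1) le_rfl
  have c3 := CC_succ m (t := 2) (by norm_num)
  have c4 := CC_succ m (t := 3) (by norm_num)
  have c5 := CC_succ m (t := 4) (by norm_num)
  have w1 : ww 1 = 1 := by decide
  have w2 : ww 2 = 4 := by decide
  have w3 : ww 3 = 19 := by decide
  have w4 : ww 4 = 140 := by decide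
  have w5 : ww 5 = 1420 := by decide
  have r0 : RR 0 = 1 := by decide
  have r1 : RR 1 = 1 := by decide
  have r2 : RR 2 = 4 := by decide
  have r3 : RR 3 = 16 := by decide
  have r4 : RR 4 = 125 := by decide
  have r5 : RR 5 = 1296 := by decide
  have n0 : NN m 0 = 16 * m := rfl
  have n1 : NN m 1 = m := rfl
  have n2 : NN m 2 = 32 * m / 128 := rfl
  have n3 : NN m 3 = 32 * m / 3072 := rfl
  have n4 : NN m 4 = 32 * m / 98304 := rfl
  have n5 : NN m 5 = 32 * m / 3932160 := rfl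
  norm_num at c2 c3 c4 c5
  rw [c1, w1, w2, n0, n2, r0, r1, r2] at c2
  rw [c2, w2, w3, n1, n3, r1, r2, r3] at c3
  rw [c3, w3, w4, n2, n4, r2, r3, r4] at c4
  rw [c4, w4, w5, n3, n5, r3, r4, r5] at c5
  rw [c5]
  have hm' : 1000000 ≤ m := le_trans (by norm_num) hm
  clear hm c2 c3 c4 c5 n0 n1 n2 n3 n4 n5
  have d2 : 4 * (32 * m / 128) ≤ m := by omega
  have d3 : 96 * (32 * m / 3072) ≤ m := by omega
  have d4 : 3072 * (32 * m / 98304) ≤ m := by omega
  have d5 : 122880 * (32 * m / 3932160) ≤ m := by omega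
  generalize 32 * m / 128 = x2 at *
  generalize 32 * m / 3072 = x3 at *
  generalize 32 * m / 98304 = x4 at *
  generalize 32 * m / 3932160 = x5 at *
  linarith

theorem range_le {m TM : ℕ} (hm : 10 ^ 40 ≤ m) (hTM : 1600 * m ≤ 16 ^ TM * TM.factorial)
    (hmin : ∀ t < TM, 16 ^ t * t.factorial < 1600 * m) :
    CC m (TM + 1) ≤ KK m := by
  have h4 : 4 ≤ TM := by
    by_contra hcon
    push Not at hcon
    have h1 : 16 ^ TM * TM.factorial ≤ 16 ^ 4 * Nat.factorial 4 := by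
      apply Nat.mul_le_mul
      · exact Nat.pow_le_pow_right (by norm_num) (by omega)
      · exact Nat.factorial_le (by omega)
    have h2 : 16 ^ 4 * Nat.factorial 4 < 10 ^ 40 := by decide
    omega
  have hm0 : (0 : ℝ) ≤ m := Nat.cast_nonneg m
  have claim : ∀ a, a + 4 ≤ TM → (CC m (a + 5) : ℝ) ≤ (m : ℝ) * (30 - 36 / 2 ^ (a + 4)) := by
    intro a
    induction a with
    | zero =>
      intro _
      have h1 := CC_five hm
      have h2 : (4 : ℝ) * (CC m 5 : ℝ) ≤ 111 * m := by exact_mod_cast h1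
      norm_num
      linarith
    | succ a ih =>
      intro ha
      have h1 := ih (by omega)
      have h2 := step (m := m) (a := a) hm (hmin (a + 4) (by omega))
      have h3 := CC_succ m (t := a + 5) (by omega)
      have h5 : (CC m (a + 5 + 1) : ℝ) = (CC m (a + 5) : ℝ) +
          ((ww (a + 5) * NN m (a + 4) + ww (a + 6) * NN m (a + 6) +
            2 * (RR (a + 5) + RR (a + 4) + RR (a + 6)) : ℕ) : ℝ) := by
        rw [h3]
        push_cast
        ring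
      have h6 : a + 1 + 5 = a + 5 + 1 := by omega
      rw [h6, h5]
      have h7 : (m : ℝ) * (30 - 36 / 2 ^ (a + 1 + 4)) =
          (m : ℝ) * (30 - 36 / 2 ^ (a + 4)) + 36 * (m : ℝ) / 2 ^ (a + 5) := by
        have e1 : a + 1 + 4 = a + 4 + 1 := by omega
        have e2 : a + 5 = a + 4 + 1 := by omega
        rw [e1, e2, pow_succ]
        field_simp
        ring
      rw [h7]
      linarith
  have h5 := claim (TM - 4) (by omega)
  have h6 : TM - 4 + 5 = TM + 1 := by omega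
  rw [h6] at h5
  have h7 : (CC m (TM + 1) : ℝ) ≤ 30 * (m : ℝ) := by
    refine h5.trans ?_
    have : (0 : ℝ) ≤ 36 / 2 ^ (TM - 4 + 4) := by positivity
    nlinarith
  unfold KK
  exact_mod_cast h7

end Pool.Agent.Helper81.RU
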