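import Pool.Agent.Helper81.RU.Defs

/-!
# RU-1: a compression of the digits by a sum-free colouring

Put the proofs into this file (keep the statements and the namespace; more lemmas are welcome).
-/

open Finset

namespace Pool.Agent.Helper81.RU

open Pool.Agent.Helper34.RB hiding Dd Dsum Good

private theorem qa_succ (A : ℕ) : qa (A + 1) + 1 = 3 * qa A := by
  unfold qa
  have h : 3 ^ A % 2 = 1 := by
    rw [Nat.pow_mod]
    norm_num
  have h2 : 3 ^ (A + 1) = 3 * 3 ^ A := by ring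
  omega

private theorem qa_pos (A : ℕ) : 1 ≤ qa A := by
  unfold qa
  have h : 1 ≤ 3 ^ A := Nat.one_le_pow _ _ (by norm_num)
  omega

private theorem zb_step (q Q c X Y S : ℤ) (hq : 1 ≤ q) (hQ : Q + 1 = 3 * q) (hc1 : 2 * c ≤ Q)
    (hc2 : Q ≤ 2 * c + 1) (hX1 : -c ≤ X) (hX2 : X < Q - c) (hY1 : -c ≤ Y) (hY2 : Y < Q - c)
    (hS1 : -c ≤ S) (hS2 : S < Q - c) (hd : Q ∣ X + Y - S) :
    X + Y - S = 0 ∨ X + Y - S = Q ∨ X + Y - S = -Q := by
  obtain ⟨k, hk⟩ := hd
  have h1 : k < 2 := by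
    by_contra h
    have h2 : 2 ≤ k := by omega
    nlinarith
  have h3 : -2 < k := by
    by_contra h
    have h2 : k ≤ -2 := by omega
    nlinarith
  have h4 : k = -1 ∨ k = 0 ∨ k = 1 := by omega
  rcases h4 with h | h | h
  · right
    right
    rw [hk, h]
    ring
  · left
    rw [hk, h]
    ring
  · right
    left
    rw [hk, h]
    ring

private theorem sumfree_int (A : ℕ) (hA : 1 ≤ A) :
    ∃ col : ℤ → ℕ, (∀ x, col x < A) ∧ (∀ x y : ℤ, (qa A : ℤ) ∣ x - y → col x = col y) ∧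
      ∀ x y : ℤ, ¬ (qa A : ℤ) ∣ x → ¬ (qa A : ℤ) ∣ y → ¬ (qa A : ℤ) ∣ x + y →
        ¬ (col x = col y ∧ col (x + y) = col x) := by
  induction A, hA using Nat.le_induction with
  | base =>
    refine ⟨fun _ => 0, fun _ => Nat.zero_lt_one, fun _ _ _ => rfl, ?_⟩
    intro x y hx hy hxy
    exfalso
    have h : (qa 1 : ℤ) = 2 := by norm_num [qa]
    rw [h] at hx hy hxy
    omega
  | succ A hA ih =>
    obtain ⟨col, hc1, hc2, hc3⟩ := ih
    have hqQ : (qa (A + 1) : ℤ) + 1 = 3 * (qa A : ℤ) := by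
      have := qa_succ A
      exact_mod_cast this
    have hq1 : (1 : ℤ) ≤ (qa A : ℤ) := by exact_mod_cast qa_pos A
    generalize hq : (qa A : ℤ) = q at *
    generalize hQ : (qa (A + 1) : ℤ) = Q at *
    obtain ⟨c, hcc1, hcc2⟩ : ∃ c : ℤ, 2 * c ≤ Q ∧ Q ≤ 2 * c + 1 := ⟨Q / 2, by omega, by omega⟩
    obtain ⟨z, hz⟩ : ∃ z : ℤ → ℤ, ∀ x, z x = (x + c) % Q - c := ⟨_, fun _ => rfl⟩
    have hQpos : 0 < Q := by omega
    have hz1 : ∀ x, -c ≤ z x := by
      intro x
      rw [hz x]
      have := Int.emod_nonneg (x + c) (by omega : Q ≠ 0)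
      omega
    have hz2 : ∀ x, z x < Q - c := by
      intro x
      rw [hz x]
      have := Int.emod_lt_of_pos (x + c) hQpos
      omega
    have hz3 : ∀ x, Q ∣ x - z x := by
      intro x
      rw [hz x]
      have h1 : x - ((x + c) % Q - c) = (x + c) - (x + c) % Q := by ring
      rw [h1]
      exact Int.dvd_self_sub_emod
    have hz4 : ∀ x y, Q ∣ x - y → z x = z y := by
      intro x y h
      rw [hz x, hz y]
      have h1 : y + c ≡ x + c [ZMOD Q] := by
        rw [Int.modEq_iff_dvd]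
        have h2 : x + c - (y + c) = x - y := by ring
        rw [h2]
        exact h
      have h3 : (y + c) % Q = (x + c) % Q := h1
      rw [h3]
    have hz5 : ∀ x, ¬ Q ∣ x → z x ≠ 0 := by
      intro x hx h0
      apply hx
      have := hz3 x
      rw [h0, sub_zero] at this
      exact this
    refine ⟨fun x => if -q < z x ∧ z x < q then col (z x) else A, ?_, ?_, ?_⟩
    · intro x
      have h1 := hc1 (z x)
      dsimp only
      split_ifs <;> omega
    · intro x y h
      dsimp only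
      rw [hz4 x y h]
    · intro x y hx hy hxy
      rintro ⟨h1, h2⟩
      dsimp only at h1 h2
      have hd : Q ∣ z x + z y - z (x + y) := by
        have h3 : z x + z y - z (x + y) = (x + y - z (x + y)) - (x - z x) - (y - z y) := by ring
        rw [h3]
        exact dvd_sub (dvd_sub (hz3 _) (hz3 _)) (hz3 _)
      have key := zb_step q Q c (z x) (z y) (z (x + y)) hq1 hqQ hcc1 hcc2 (hz1 _) (hz2 _) (hz1 _)
        (hz2 _) (hz1 _) (hz2 _) hd
      have n1 := hz5 x hx
      have n2 := hz5 y hy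
      have n3 := hz5 _ hxy
      have b1 := hz1 x
      have b2 := hz1 y
      have b3 := hz1 (x + y)
      have b4 := hz2 x
      have b5 := hz2 y
      have b6 := hz2 (x + y)
      have c1 := hc1 (z x)
      have c2 := hc1 (z y)
      have c3 := hc1 (z (x + y))
      have nd : ∀ t : ℤ, -q < t → t < q → t ≠ 0 → ¬ q ∣ t := by
        intro t ht1 ht2 ht3 ht4
        exact ht3 (Int.eq_zero_of_abs_lt_dvd ht4 (abs_lt.2 ⟨ht1, ht2⟩))
      by_cases hsx : -q < z x ∧ z x < q
      · rw [if_pos hsx] at h1 h2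
        have hsy : -q < z y ∧ z y < q := by
          by_contra h
          rw [if_neg h] at h1
          omega
        have hss : -q < z (x + y) ∧ z (x + y) < q := by
          by_contra h
          rw [if_neg h] at h2
          omega
        rw [if_pos hsy] at h1
        rw [if_pos hss] at h2
        have hs : z (x + y) = z x + z y := by omega
        rw [hs] at h2 n3 hss
        exact hc3 (z x) (z y) (nd _ hsx.1 hsx.2 n1) (nd _ hsy.1 hsy.2 n2)
          (nd _ hss.1 hss.2 n3) ⟨h1, h2⟩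
      · rw [if_neg hsx] at h1 h2
        have hsy : ¬ (-q < z y ∧ z y < q) := by
          intro h
          rw [if_pos h] at h1
          omega
        have hss : ¬ (-q < z (x + y) ∧ z (x + y) < q) := by
          intro h
          rw [if_pos h] at h2
          omega
        clear hc1 hc2 hc3 hz hz1 hz2 hz3 hz4 hz5 nd h1 h2 hd c1 c2 c3
        omega

/-- `ZMod (qa A)` minus `0` is a union of `A` sum-free classes.

Proof. `qa A = (3 ^ A + 1) / 2`, so `qa 1 = 2` and `qa (A + 1) = 3 * qa A - 1`.  Prove by induction on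
`A ≥ 1` the statement with a function `col : ℤ → ℕ`, `col x < A`, `col` periodic with period `q = qa A`,
and: there are no `x y : ℤ` with `¬ q ∣ x`, `¬ q ∣ y`, `¬ q ∣ x + y`, `col x = col y`,
`col (x + y) = col x`.  Base `A = 1`: `q = 2`, `x`, `y` odd, so `2 ∣ x + y`.  Step: let
`Q = 3 q - 1` and `z = Int.bmod x Q` (the balanced residue, `|z| ≤ Q / 2`); put `col' x = col z` if
`|z| < q` and `col' x = A` otherwise.  Let `zx`, `zy`, `zs` be the balanced residues of `x`, `y`,
`x + y`; `Q ∣ zx + zy - zs` and `|zx + zy - zs| < 2 Q`, so `zx + zy - zs ∈ {-Q, 0, Q}`.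
* all three in absolute value `< q`: `|zx + zy - zs| ≤ 3 q - 3 < Q`, so `zs = zx + zy`, and none of the
  three is divisible by `q` (absolute value `< q` and not `0`, as `Q` does not divide `x`, `y`,
  `x + y`): contradiction to the property of `col`.
* all three in absolute value `≥ q` (and `≤ Q / 2 < 3 q / 2`): if `zx`, `zy` have different signs then
  `|zx + zy| < q` and `|zx + zy ± Q| > Q / 2`..., if they have the same sign then
  `2 q ≤ |zx + zy| ≤ Q` and `zs` is `0` or `zx + zy ∓ Q`, of absolute value `≤ q - 1`: contradiction.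
Then transfer to `ZMod q` (e.g. `fun x => col (x.val)` or `ZMod.cast`). -/
theorem sumfree (A : ℕ) (hA : 1 ≤ A) :
    ∃ col : ZMod (qa A) → ℕ, (∀ x, col x < A) ∧
      ∀ x y : ZMod (qa A), x ≠ 0 → y ≠ 0 → x + y ≠ 0 → ¬ (col x = col y ∧ col (x + y) = col x) := by
  obtain ⟨col, h1, h2, h3⟩ := sumfree_int A hA
  have : NeZero (qa A) := ⟨by have := qa_pos A; omega⟩
  have e : ∀ x : ZMod (qa A), ((x.val : ℤ) : ZMod (qa A)) = x := by
    intro x
    rw [Int.cast_natCast, ZMod.natCast_val, ZMod.cast_id', id]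
  have nd : ∀ x : ZMod (qa A), ∀ t : ℤ, (t : ZMod (qa A)) = x → x ≠ 0 → ¬ (qa A : ℤ) ∣ t := by
    intro x t ht hx hd
    rw [← ZMod.intCast_zmod_eq_zero_iff_dvd] at hd
    exact hx (ht.symm.trans hd)
  refine ⟨fun x => col (x.val : ℤ), fun x => h1 _, ?_⟩
  intro x y hx hy hxy
  rintro ⟨h4, h5⟩
  dsimp only at h4 h5
  have h6 : col (((x + y).val : ℕ) : ℤ) = col ((x.val : ℤ) + (y.val : ℤ)) := by
    apply h2
    rw [← ZMod.intCast_zmod_eq_zero_iff_dvd, Int.cast_sub, Int.cast_add, e, e, e, sub_self]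
  rw [h6] at h5
  refine h3 (x.val : ℤ) (y.val : ℤ) (nd x _ (e x) hx) (nd y _ (e y) hy) (nd (x + y) _ ?_ hxy)
    ⟨h4, h5⟩
  rw [Int.cast_add, e, e]

/-- Proof. Let `col` be from `sumfree` and `Φ v` the code of the vector of the colours `col (v j)`,
`j : Fin (s - 1)`, e.g. `(finFunctionFinEquiv fun j => ⟨col (v j), _⟩ : Fin (A ^ (s - 1)))`
(`finFunctionFinEquiv : (Fin n → Fin m) ≃ Fin (m ^ n)`), so `Φ v < A ^ (s - 1)`, and `Φ v = Φ v'` iff
all the colours agree.  If the set in `Compr` has three elements `i < i' < i''` (`≤ s`), evaluate at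
`j = i' - 1 : Fin (s - 1)` (`1 ≤ i' ≤ s - 1`), as in `Vv_three` (Helper34/RB/Vv3.lean):
`Vv a b i j = b j`, `Vv a b i' j = a j + b j`, `Vv a b i'' j = a j`, all three nonzero and of the same
colour: contradiction to `sumfree`.  (For the three elements see the proof of `Vv_fib` there.) -/
theorem compr_qa (A s : ℕ) (hA : 1 ≤ A) :
    ∃ Φ : (Fin (s - 1) → ZMod (qa A)) → ℕ, Compr (qa A) s (A ^ (s - 1)) 2 Φ := by
  obtain ⟨col, h1, h2⟩ := sumfree A hA
  obtain ⟨Φ, hΦ⟩ : ∃ Φ : (Fin (s - 1) → ZMod (qa A)) → ℕ, ∀ v, Φ v =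
      ((finFunctionFinEquiv (fun j : Fin (s - 1) => (⟨col (v j), h1 _⟩ : Fin A))) :
        Fin (A ^ (s - 1))).val := ⟨_, fun _ => rfl⟩
  have hcol : ∀ v v' : Fin (s - 1) → ZMod (qa A), Φ v = Φ v' → ∀ j, col (v j) = col (v' j) := by
    intro v v' h j
    rw [hΦ, hΦ] at h
    have h3 := finFunctionFinEquiv.injective (Fin.ext h)
    have h4 := congrFun h3 j
    exact congrArg Fin.val h4
  refine ⟨Φ, ?_, ?_⟩
  · intro v
    rw [hΦ]
    exact Fin.isLt _
  · intro a b w
    by_contra hc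
    push Not at hc
    obtain ⟨x, y, z, hx, hy, hz, hxy, hxz, hyz⟩ := Finset.two_lt_card_iff.1 hc
    rw [mem_filter, mem_range] at hx hy hz
    have key : ∀ i i' i'' : ℕ, i < i' → i' < i'' → i'' < s + 1 →
        ((∀ j, Vv a b i j ≠ 0) ∧ Φ (Vv a b i) = w) →
        ((∀ j, Vv a b i' j ≠ 0) ∧ Φ (Vv a b i') = w) →
        ((∀ j, Vv a b i'' j ≠ 0) ∧ Φ (Vv a b i'') = w) → False := by
      intro i i' i'' k1 k2 k3 k4 k5 k6
      have hj : i' - 1 < s - 1 := by omega
      have m1 := hcol _ _ (k4.2.trans k5.2.symm) ⟨i' - 1, hj⟩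
      have m2 := hcol _ _ (k6.2.trans k4.2.symm) ⟨i' - 1, hj⟩
      have n1 := k4.1 ⟨i' - 1, hj⟩
      have n2 := k5.1 ⟨i' - 1, hj⟩
      have n3 := k6.1 ⟨i' - 1, hj⟩
      have e1 : ¬ (i' - 1 + 1 < i) := by omega
      have e2 : ¬ (i' - 1 + 1 = i) := by omega
      have e3 : ¬ (i' - 1 + 1 < i') := by omega
      have e4 : i' - 1 + 1 = i' := by omega
      have e5 : i' - 1 + 1 < i'' := by omega
      simp only [Vv] at m1 m2 n1 n2 n3
      rw [if_neg e1, if_neg e2] at m1 m2 n1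
      rw [if_neg e3, if_pos e4] at m1 n2
      rw [if_pos e5] at m2 n3
      exact h2 _ _ n3 n1 n2 ⟨m2, m1.symm.trans m2.symm⟩
    rcases lt_or_gt_of_ne hxy with h1 | h1 <;> rcases lt_or_gt_of_ne hxz with h2 | h2 <;>
      rcases lt_or_gt_of_ne hyz with h3 | h3
    · exact key x y z h1 h3 hz.1 hx.2 hy.2 hz.2
    · exact key x z y h2 h3 hy.1 hx.2 hz.2 hy.2
    · omega
    · exact key z x y h2 h1 hy.1 hz.2 hx.2 hy.2
    · exact key y x z h1 h2 hz.1 hy.2 hx.2 hz.2
    · omega
    · exact key y z x h3 h2 hx.1 hy.2 hz.2 hx.2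
    · exact key z y x h3 h1 hx.1 hz.2 hy.2 hx.2

end Pool.Agent.Helper81.RU
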