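import Pool.Agent.Helper81.RU.BaseDet
import Pool.Agent.Helper81.RU.ChooseH
import Pool.Agent.Helper81.RU.ChooseM
import Pool.Agent.Helper81.RU.SumFree
import Pool.Agent.Helper81.RU.Range
import Pool.Agent.Helper34.RB.BaseFinal

/-!
# The base colouring with multiplicity `2` (assembly), and the choice of the heaviest classes
-/

open Finset

namespace Pool.Agent.Helper81.RU

open Pool.Agent.Helper34.RB (Bdd BddCol sum_filter_or_le Compr)

lemma exists_TM (m : ℕ) : ∃ t, 1600 * m ≤ 16 ^ t * t.factorial := by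
  refine ⟨1600 * m, ?_⟩
  have h1 : 1600 * m ≤ 16 ^ (1600 * m) := (Nat.lt_pow_self (by norm_num)).le
  calc 1600 * m ≤ 16 ^ (1600 * m) * 1 := by simpa using h1
    _ ≤ _ := by
      gcongr
      exact Nat.factorial_pos _

open Classical in
theorem base_final {X ι : Type} [LinearOrder X] [Fintype X] (I : Finset ι) (S : ι → Finset X)
    (w : ι → ℝ) (hw : ∀ i ∈ I, 0 ≤ w i) {m : ℕ} (hm : 10 ^ 40 ≤ m)
    (hS : ∀ i ∈ I, (S i).card ≤ m) :
    ∃ (good : Finset X → Prop) (g : Finset X → ℕ), BddCol 2 good g ∧ (∀ E, g E < 30 * m) ∧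
      ∑ i ∈ I.filter (fun i => ¬ good (S i)), w i ≤ 19 / 50 * ∑ i ∈ I, w i := by
  have hm1 : 1 ≤ m := le_trans (by norm_num) hm
  have hex := exists_TM m
  set TM := Nat.find hex with hTMdef
  have hTM : 1600 * m ≤ 16 ^ TM * TM.factorial := Nat.find_spec hex
  have hmin : ∀ t < TM, 16 ^ t * t.factorial < 1600 * m :=
    fun t ht => not_le.mp (Nat.find_min hex ht)
  obtain ⟨h, hh⟩ := chooseH I S w hw hm1 hS hTM
  obtain ⟨M, hM⟩ := chooseM h I S w hw TM
  have hΦex : ∀ s, ∃ Φ : (Fin (s - 1) → ZMod (qq s)) → ℕ, Compr (qq s) s (RR s) 2 Φ := by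
    intro s
    obtain ⟨Φ, hΦ⟩ := compr_qa (AA s) s (by unfold AA; split_ifs <;> omega)
    exact ⟨Φ, hΦ⟩
  choose Φ hΦ using hΦex
  refine ⟨Good h (NN m) qq M TM,
    fun E => (Helper34.RB.stat h (CC m) ww TM E + Dsum h qq M Φ TM E) % (30 * m), ?_, ?_, ?_⟩
  · refine base_det h M Φ RR_pos (fun s _ _ => hΦ s) (fun t => by unfold ww; omega)
      (by unfold CC; exact le_rfl) (fun t ht _ => ?_) (range_le hm hTM hmin)
    rw [CC_succ m ht]
  · intro E
    exact Nat.mod_lt _ (by omega)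
  · have h2 := sum_filter_or_le I w hw
      (fun i => ¬ ((∀ t, (Helper34.RB.Bs h (S i) t).card ≤ NN m t) ∧
        Helper34.RB.Bs h (S i) TM = ∅))
      (fun i => ¬ ∀ s ∈ Icc 2 TM, Helper34.RB.NZ h (qq s) (M s) s (S i))
      (fun i => ¬ Good h (NN m) qq M TM (S i)) (fun i _ hi => by
        by_contra hcon
        rw [not_or, not_not, not_not] at hcon
        exact hi ⟨hcon.1.1, hcon.1.2, hcon.2⟩)
    refine h2.trans ((add_le_add hh hM).trans (le_of_eq ?_))
    ring

/-- choose `s` of `K` classes with at least the average weight -/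
lemma choose_classes (K : ℕ) (W : ℕ → ℝ) (s : ℕ) (hs : s ≤ K) :
    ∃ C ⊆ range K, C.card = s ∧ (s : ℝ) * ∑ c ∈ range K, W c ≤ K * ∑ c ∈ C, W c := by
  induction s with
  | zero => exact ⟨∅, empty_subset _, rfl, by simp⟩
  | succ s ih =>
    obtain ⟨C, hC, hCs, hW⟩ := ih (by omega)
    have hne : (range K \ C).Nonempty := by
      rw [← card_pos, card_sdiff_of_subset hC, card_range, hCs]
      omega
    obtain ⟨c, hc, hmax⟩ := exists_max_image (range K \ C) W hne
    rw [mem_sdiff] at hc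
    refine ⟨insert c C, insert_subset hc.1 hC, by rw [card_insert_of_notMem hc.2, hCs], ?_⟩
    rw [sum_insert hc.2]
    have h1 : ∑ x ∈ range K \ C, W x ≤ ((K - s : ℕ) : ℝ) * W c := by
      have h2 := sum_le_card_nsmul (range K \ C) W (W c) hmax
      rw [card_sdiff_of_subset hC, card_range, hCs, nsmul_eq_mul] at h2
      exact h2
    have h3 : ∑ x ∈ range K \ C, W x + ∑ x ∈ C, W x = ∑ x ∈ range K, W x := sum_sdiff hC
    have hKs : ((K - s : ℕ) : ℝ) = (K : ℝ) - s := Nat.cast_sub (by omega)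
    rw [hKs] at h1
    have hKpos : (1 : ℝ) ≤ (K : ℝ) - s := by
      rw [← hKs]
      exact_mod_cast (by omega : 1 ≤ K - s)
    set A := ∑ x ∈ C, W x
    set B := ∑ x ∈ range K, W x
    push_cast
    -- `(K - s) (K (W c + A) - (s + 1) B) ≥ 0`
    have h4 : 0 ≤ ((K : ℝ) - s) * (K * (W c + A) - (s + 1) * B) := by
      have h5 : B - A ≤ ((K : ℝ) - s) * W c := by linarith
      have hK0 : (0 : ℝ) ≤ K := Nat.cast_nonneg K
      have h6 := mul_le_mul_of_nonneg_left h5 hK0
      have h7 := mul_le_mul_of_nonneg_left hW (by linarith : (0 : ℝ) ≤ (K : ℝ) - s - 1)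
      nlinarith
    have h5 := nonneg_of_mul_nonneg_right h4 (by linarith)
    linarith

open Classical in
/-- a bounded family containing many of the given sets -/
theorem family {X ι : Type} [LinearOrder X] [Fintype X] (I : Finset ι) (S : ι → Finset X)
    (w : ι → ℝ) (hw : ∀ i ∈ I, 0 ≤ w i) {m : ℕ} (hm : 10 ^ 40 ≤ m)
    (hS : ∀ i ∈ I, (S i).card ≤ m) (s : ℕ) (hs : s ≤ 30 * m) :
    ∃ F : Finset X → Prop, Bdd (2 * s) F ∧
      (s : ℝ) * (31 / 50 * ∑ i ∈ I, w i) ≤ 30 * m * ∑ i ∈ I.filter (fun i => F (S i)), w i := by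
  obtain ⟨good, g, hB, hg, hbad⟩ := base_final I S w hw hm hS
  obtain ⟨C, hC, hCs, hW⟩ := choose_classes (30 * m)
    (fun c => ∑ i ∈ I.filter (fun i => good (S i) ∧ g (S i) = c), w i) s hs
  obtain ⟨F, hF⟩ : ∃ F : Finset X → Prop, ∀ E, F E ↔ (good E ∧ g E ∈ C) := ⟨_, fun _ => Iff.rfl⟩
  refine ⟨F, ?_, ?_⟩
  · intro T
    refine (card_le_card (t := C.biUnion fun c => T.filter fun x =>
      good (T.erase x) ∧ g (T.erase x) = c) ?_).trans ?_
    · intro x hx
      rw [mem_filter, hF] at hx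
      rw [mem_biUnion]
      exact ⟨_, hx.2.2, mem_filter.mpr ⟨hx.1, hx.2.1, rfl⟩⟩
    calc (C.biUnion fun c => T.filter fun x => good (T.erase x) ∧ g (T.erase x) = c).card
        ≤ ∑ c ∈ C, (T.filter fun x => good (T.erase x) ∧ g (T.erase x) = c).card :=
        card_biUnion_le
      _ ≤ ∑ c ∈ C, 2 := sum_le_sum fun c _ => hB T c
      _ = 2 * s := by rw [sum_const, hCs, smul_eq_mul, mul_comm]
  · have h1 : ∑ c ∈ range (30 * m), ∑ i ∈ I.filter (fun i => good (S i) ∧ g (S i) = c), w i =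
        ∑ i ∈ I.filter (fun i => good (S i)), w i := by
      rw [← sum_fiberwise_of_maps_to (s := I.filter (fun i => good (S i)))
        (t := range (30 * m)) (g := fun i => g (S i)) (fun i _ => mem_range.mpr (hg _)) w]
      refine sum_congr rfl fun c _ => ?_
      rw [filter_filter]
    have h2 : ∑ c ∈ C, ∑ i ∈ I.filter (fun i => good (S i) ∧ g (S i) = c), w i =
        ∑ i ∈ I.filter (fun i => good (S i) ∧ g (S i) ∈ C), w i := by
      rw [← sum_fiberwise_of_maps_to (s := I.filter (fun i => good (S i) ∧ g (S i) ∈ C))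
        (t := C) (g := fun i => g (S i)) (fun i hi => (mem_filter.mp hi).2.2) w]
      refine sum_congr rfl fun c hc => ?_
      rw [filter_filter]
      apply sum_congr _ fun _ _ => rfl
      ext i
      simp only [mem_filter]
      constructor
      · rintro ⟨h1, h2, h3⟩
        exact ⟨h1, ⟨h2, by rw [h3]; exact hc⟩, h3⟩
      · rintro ⟨h1, ⟨h2, -⟩, h3⟩
        exact ⟨h1, h2, h3⟩
    rw [h1, h2] at hW
    have h3 := sum_filter_add_sum_filter_not I (fun i => good (S i)) w
    have h4 : 31 / 50 * ∑ i ∈ I, w i ≤ ∑ i ∈ I.filter (fun i => good (S i)), w i := by linarith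
    push_cast at hW
    have h5 : (s : ℝ) * (31 / 50 * ∑ i ∈ I, w i) ≤
        s * ∑ i ∈ I.filter (fun i => good (S i)), w i := by gcongr
    refine (h5.trans hW).trans (le_of_eq ?_)
    congr 1
    refine sum_congr ?_ fun _ _ => rfl
    ext i
    simp only [mem_filter, hF]

end Pool.Agent.Helper81.RU
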