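import Pool.Agent.Helper81.RU.PP
import Pool.Agent.Helper34.RB.Final

/-!
# From bounded families to the lower bound for `M_r(N)`
-/

open Finset Filter

namespace Pool.Agent.Helper81.RU

open Helper16.UB (Admissible M om ll)
open Pool.Agent.Helper34.RB (Bdd le_M M_nonneg harm_ge tail)

/-- the weight of the integers with few prime power divisors -/
lemma weight_ge2 {N k D : ℕ} (hD : 1 ≤ D) {η : ℝ}
    (ht : ∑ a ∈ (Icc 1 N).filter (fun a => k < om a), 1 / (a : ℝ) ≤ η * Real.log N) :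
    (1 - 1 / (D : ℝ) - η) * Real.log N ≤
      ∑ a ∈ (Icc 1 N).filter (fun a => (SP N a).card ≤ k + D), 1 / (a : ℝ) := by
  have h1 := weight2 (N := N) (k := k) hD
  have h2 := harm_ge N
  have h3 := sum_filter_add_sum_filter_not (Icc 1 N) (fun a => k + D < (SP N a).card)
    (fun a : ℕ => 1 / (a : ℝ))
  have h4 : ∑ a ∈ (Icc 1 N).filter (fun a => ¬ k + D < (SP N a).card), 1 / (a : ℝ) =
      ∑ a ∈ (Icc 1 N).filter (fun a => (SP N a).card ≤ k + D), 1 / (a : ℝ) := by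
    simp only [not_lt]
  rw [h4] at h3
  have hD1 : (1 : ℝ) ≤ D := by exact_mod_cast hD
  have h5 : 0 ≤ 1 - 1 / (D : ℝ) := by
    rw [sub_nonneg, div_le_one (by linarith)]; exact hD1
  have h6 := mul_le_mul_of_nonneg_left h2 h5
  linarith

open Classical in
/-- a bounded family for every large `m` gives a lower bound for `M_r(N)` -/
theorem lower_of {K0 m0 : ℕ} {κ c : ℝ} (hK0 : 1 ≤ K0) (hκ : 0 < κ) (hc : 0 < c)
    (hcκ : c * K0 < κ)
    (hfam : ∀ (N : ℕ) (I : Finset ℕ) (S : ℕ → Finset (Fin (N + 1))) (w : ℕ → ℝ),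
      (∀ i ∈ I, 0 ≤ w i) → ∀ m : ℕ, m0 ≤ m → (∀ i ∈ I, (S i).card ≤ m) →
      ∀ s ≤ K0 * m, ∃ F : Finset (Fin (N + 1)) → Prop, Bdd (2 * s) F ∧
        (s : ℝ) * (κ * ∑ i ∈ I, w i) ≤ K0 * m * ∑ i ∈ I.filter (fun i => F (S i)), w i)
    {r : ℕ} (hr : 2 ≤ r) :
    ∀ᶠ N : ℕ in atTop, ((r / 2 : ℕ) : ℝ) * c * (Real.log N / Real.log (Real.log N)) ≤ M r N := by
  have hK0' : (1 : ℝ) ≤ K0 := by exact_mod_cast hK0
  -- `δ` and `D`
  obtain ⟨δ, hδ0, hδ⟩ : ∃ δ : ℝ, 0 < δ ∧ c * K0 * (1 + 2 * δ) ≤ κ * (1 - 2 * δ) := by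
    refine ⟨(κ - c * K0) / (4 * κ), div_pos (by linarith) (by linarith), ?_⟩
    have h1 : κ * ((κ - c * K0) / (4 * κ)) = (κ - c * K0) / 4 := by field_simp
    have h2 : c * K0 * ((κ - c * K0) / (4 * κ)) ≤ κ * ((κ - c * K0) / (4 * κ)) := by
      apply mul_le_mul_of_nonneg_right hcκ.le
      apply div_nonneg <;> linarith
    nlinarith
  obtain ⟨D, hD⟩ := exists_nat_gt (1 / δ)
  have hD0 : (0 : ℝ) < D := lt_trans (by positivity) hD
  have hD1 : 1 ≤ D := by exact_mod_cast hD0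
  have hDδ : 1 / (D : ℝ) ≤ δ := by
    rw [div_le_iff₀ hD0]
    rw [div_lt_iff₀ hδ0] at hD
    linarith
  have hll := Helper16.UB.tendsto_ll
  set s := r / 2 with hs
  have hs1 : 1 ≤ s := by omega
  filter_upwards [hll.eventually_ge_atTop (1 : ℝ), hll.eventually_ge_atTop (m0 : ℝ),
    hll.eventually_ge_atTop (s : ℝ), hll.eventually_ge_atTop ((D : ℝ) / δ),
    eventually_ge_atTop 1, tail hδ0 hδ0] with N hl1 hlm hls hlD hN1 ht
  set l := Real.log (Real.log N) with hl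
  have hll' : ll N = l := rfl
  rw [hll'] at hl1 hlm hls hlD
  set k := ⌊(1 + δ) * l⌋₊ with hk
  have hlpos : (0 : ℝ) < l := by linarith
  have hk0 : (k : ℝ) ≤ (1 + δ) * l := Nat.floor_le (by positivity)
  have hkl : l < (k : ℝ) + 1 := by
    have h1 := Nat.lt_floor_add_one ((1 + δ) * l)
    have h2 : l ≤ (1 + δ) * l := by nlinarith
    linarith
  have hkm : m0 ≤ k + D := by
    have h1 : (m0 : ℝ) < (k : ℝ) + 1 := by linarith
    have h2 : m0 < k + 1 := by exact_mod_cast h1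
    omega
  have hsk : s ≤ K0 * (k + D) := by
    have h1 : (s : ℝ) < (k : ℝ) + 1 := by linarith
    have h2 : s < k + 1 := by exact_mod_cast h1
    calc s ≤ 1 * (k + D) := by omega
      _ ≤ K0 * (k + D) := Nat.mul_le_mul_right _ hK0
  set I := (Icc 1 N).filter (fun a => (SP N a).card ≤ k + D) with hI
  obtain ⟨F, hF1, hF2⟩ := hfam N I (SP N) (fun a => 1 / (a : ℝ)) (fun a _ => by positivity)
    (k + D) hkm (fun a ha => (mem_filter.mp ha).2) s hsk
  have hW := weight_ge2 (N := N) (k := k) hD1 ht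
  have hF3 : Bdd r F := fun T => (hF1 T).trans (by omega)
  have hadm : Admissible r N (I.filter fun a => F (SP N a)) := by
    refine adm2 (by omega) F hF3 _ fun a ha => ?_
    rw [mem_filter] at ha
    have h1 := mem_filter.mp ha.1
    have h2 := mem_Icc.mp h1.1
    exact ⟨h2.1, h2.2, ha.2⟩
  refine le_trans ?_ (le_M hadm)
  set V := ∑ n ∈ I.filter (fun a => F (SP N a)), 1 / (n : ℝ) with hV
  set Wt := ∑ a ∈ I, 1 / (a : ℝ) with hWt
  have hL0 : 0 ≤ Real.log N := Real.log_natCast_nonneg N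
  have hV0 : 0 ≤ V := sum_nonneg fun n _ => by positivity
  -- the size of `k + D`
  have hkD : ((k + D : ℕ) : ℝ) ≤ (1 + 2 * δ) * l := by
    push_cast
    have h1 : (D : ℝ) ≤ δ * l := by
      rw [div_le_iff₀ hδ0] at hlD
      linarith
    linarith
  have hs0 : (0 : ℝ) ≤ s := Nat.cast_nonneg s
  have h1 : (s : ℝ) * (κ * ((1 - 2 * δ) * Real.log N)) ≤ K0 * ((1 + 2 * δ) * l) * V := by
    calc (s : ℝ) * (κ * ((1 - 2 * δ) * Real.log N))
        ≤ s * (κ * ((1 - 1 / (D : ℝ) - δ) * Real.log N)) :=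
          mul_le_mul_of_nonneg_left (mul_le_mul_of_nonneg_left
            (mul_le_mul_of_nonneg_right (by linarith) hL0) hκ.le) hs0
      _ ≤ s * (κ * Wt) := by gcongr
      _ ≤ K0 * ((k + D : ℕ) : ℝ) * V := hF2
      _ ≤ K0 * ((1 + 2 * δ) * l) * V := by gcongr
  have h2 : (s : ℝ) * (c * K0 * (1 + 2 * δ) * Real.log N) ≤
      s * (κ * ((1 - 2 * δ) * Real.log N)) := by
    rw [← mul_assoc κ]
    gcongr
  have h3 : (K0 * (1 + 2 * δ)) * (s * c * Real.log N) ≤ (K0 * (1 + 2 * δ)) * (l * V) := by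
    linarith
  have h4 : s * c * Real.log N ≤ l * V :=
    le_of_mul_le_mul_left h3 (by positivity)
  rw [← mul_div_assoc, div_le_iff₀ hlpos]
  linarith

end Pool.Agent.Helper81.RU
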