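import Pool.Agent.Helper81.RU.Window

/-!
# The base colouring, deterministic part

Copy of RB-22 with the range `[2, TM]` and the weaker condition `R t + R (t - 1) ≤ w t + 1`.
-/

open Finset

namespace Pool.Agent.Helper81.RU

open Pool.Agent.Helper34.RB hiding Dd Dsum Good

/-- the intervals of the offsets of different loads are disjoint.

Proof. Write `a t = C t - R t - R (t - 1)` (integers) and
`e t = C t + w t * N (t - 1) + w (t + 1) * N (t + 1) + R t + R (t - 1)`, the ends of the interval of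
`t`.  By `hC`: `e t ≤ a (t + 1)`, and `a t ≤ e t`; so for `t < t'`: `e t ≤ a (t + 1) ≤ e (t + 1) ≤
a (t + 2) ≤ ... ≤ a t'` (induction on `t'`).  Stated without subtraction. -/
theorem order {R w C N : ℕ → ℕ} {TM : ℕ}
    (hC : ∀ t, 1 ≤ t → t ≤ TM →
      C t + w t * N (t - 1) + w (t + 1) * N (t + 1) + 2 * (R t + R (t - 1) + R (t + 1)) ≤
        C (t + 1)) {t t' : ℕ} (h1 : 1 ≤ t) (htt : t < t') (ht' : t' ≤ TM + 1) :
    C t + w t * N (t - 1) + w (t + 1) * N (t + 1) + R t + R (t - 1) + (R t' + R (t' - 1)) ≤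
      C t' := by
  obtain ⟨d, rfl⟩ : ∃ d, t' = t + 1 + d := ⟨t' - (t + 1), by omega⟩
  clear htt
  induction d with
  | zero =>
    have h2 := hC t h1 (by omega)
    simp only [Nat.add_zero, Nat.add_sub_cancel]
    linarith
  | succ d ih =>
    have h2 := ih (by omega)
    have h3 := hC (t + 1 + d) (by omega) (by omega)
    have h4 : t + 1 + (d + 1) = t + 1 + d + 1 := by omega
    rw [h4]
    simp only [Nat.add_sub_cancel] at h3 ⊢
    have h5 : 0 ≤ w (t + 1 + d) * N (t + 1 + d - 1) := Nat.zero_le _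
    have h6 : 0 ≤ w (t + 1 + d + 1) * N (t + 1 + d + 1) := Nat.zero_le _
    have h7 : 0 ≤ R (t + 1 + d) := Nat.zero_le _
    have h8 : 0 ≤ R (t + 1 + d + 1) := Nat.zero_le _
    have h9 : 0 ≤ R (t + 1 + d - 1) := Nat.zero_le _
    linarith

section

variable {X : Type} [LinearOrder X] {n : ℕ} {h : X → Fin n} {T : Finset X} {x x' : X}
  {q : ℕ → ℕ} {M : ∀ s, ℕ → Finset X → ZMod (q s)} {Φ : ∀ s, (Fin (s - 1) → ZMod (q s)) → ℕ}
  {R w C N : ℕ → ℕ} {TM : ℕ}

/-- Proof. Add `stat_erase` and `Dsum_erase`. -/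
theorem total_erase (hx : x ∈ T) (ht : ld h T (h x) ≤ TM) :
    stat h C w TM T + Dsum h q M Φ TM T + Dd h q M Φ TM (ld h T (h x)) (T.erase x) +
        Dd h q M Φ TM (ld h T (h x) - 1) (T.erase x) =
      stat h C w TM (T.erase x) + Dsum h q M Φ TM (T.erase x) +
        (C (ld h T (h x)) + addr h w T (ld h T (h x)) (h x) +
          Dd h q M Φ TM (ld h T (h x)) T + Dd h q M Φ TM (ld h T (h x) - 1) T) := by
  have h1 := stat_erase (C := C) (w := w) hx ht
  have h2 := Dsum_erase (h := h) (q := q) (M := M) (Φ := Φ) (TM := TM) hx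
  linarith

private theorem off_facts_rb (hx : x ∈ T) (hg : Good h N q M TM (T.erase x)) :
    1 ≤ ld h T (h x) ∧ ld h T (h x) ≤ TM ∧
      addr h w T (ld h T (h x)) (h x) ≤
        w (ld h T (h x)) * N (ld h T (h x) - 1) + w (ld h T (h x) + 1) * N (ld h T (h x) + 1) := by
  have h1 : 1 ≤ ld h T (h x) := ld_pos hx
  refine ⟨h1, ?_, ?_⟩
  · have h2 : h x ∉ Bs h (T.erase x) TM := by rw [hg.2.1]; exact notMem_empty _
    rw [mem_Bs] at h2
    have h3 := ld_erase_self (h := h) hx
    omega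
  · refine addr_le ?_ ?_
    · rw [← Bs_erase_ne hx (u := ld h T (h x) - 1) (by omega)]
      exact hg.1 _
    · rw [← Bs_erase_ne hx (u := ld h T (h x) + 1) (by omega)]
      exact hg.1 _

/-- If two good deletions have the same value, they are in the same cell.

Proof. Let `E = T.erase x`, `t = ld h T (h x) ≥ 1`, and `E'`, `t'` for `x'`.  `t ≤ TM`: `Bs h E TM = ∅`
says `ld h E (h x) < TM` and `ld h E (h x) + 1 = t` (`ld_erase_self`); same for `t'`.
By `total_erase` for `x` and `x'` and the equality of the values,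
`off x = off x'` where `off x = C t + addr_x + Dd t T + Dd (t-1) T - Dd t E - Dd (t-1) E` (integers).
Bounds: all `Dd u _ < R u` (`Dd_lt`); `addr_x ≤ w t * N (t-1) + w (t+1) * N (t+1)` by `addr_le`
(`Bs h T (t - 1) = Bs h E (t - 1)` and `Bs h T (t + 1) = Bs h E (t + 1)` by `Bs_erase_ne`, and `Good`
gives the bounds for `E`).  So `C t - R t - R (t-1) < off x < C t + w t N (t-1) + w (t+1) N (t+1)
+ R t + R (t-1)`.  By `order`, `t < t'` and `t' < t` are impossible.  So `t = t'`.  If `h x ≠ h x'`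
then (`dir_total`) `addr_gap` gives `w t ≤ |addr_x - addr_x'|`, but the equality of the offsets
gives `|addr_x - addr_x'| < R t + R (t - 1) ≤ w t` (the `Dd _ T` cancel).  Contradiction. -/
theorem same_cell {A : ℕ} (hR : ∀ u, 1 ≤ R u)
    (hΦ : ∀ s, 2 ≤ s → s ≤ TM → Compr (q s) s (R s) A (Φ s))
    (hw : ∀ t, R t + R (t - 1) ≤ w t + 1)
    (hC : ∀ t, 1 ≤ t → t ≤ TM →
      C t + w t * N (t - 1) + w (t + 1) * N (t + 1) + 2 * (R t + R (t - 1) + R (t + 1)) ≤
        C (t + 1))
    (hx : x ∈ T) (hx' : x' ∈ T) (hg : Good h N q M TM (T.erase x))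
    (hg' : Good h N q M TM (T.erase x'))
    (he : stat h C w TM (T.erase x) + Dsum h q M Φ TM (T.erase x) =
      stat h C w TM (T.erase x') + Dsum h q M Φ TM (T.erase x')) :
    h x = h x' := by
  obtain ⟨a1, a2, a3⟩ := off_facts_rb (w := w) hx hg
  obtain ⟨b1, b2, b3⟩ := off_facts_rb (w := w) hx' hg'
  have e1 := total_erase (q := q) (M := M) (Φ := Φ) (w := w) (C := C) hx a2
  have e2 := total_erase (q := q) (M := M) (Φ := Φ) (w := w) (C := C) hx' b2
  have D := fun u E => Dd_lt (h := h) (M := M) hR hΦ u E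
  obtain ⟨t, ht⟩ : ∃ t, t = ld h T (h x) := ⟨_, rfl⟩
  obtain ⟨t', ht'⟩ : ∃ t', t' = ld h T (h x') := ⟨_, rfl⟩
  rw [← ht] at a1 a2 a3 e1
  rw [← ht'] at b1 b2 b3 e2
  have d1 := D t T
  have d2 := D (t - 1) T
  have d3 := D t (T.erase x)
  have d4 := D (t - 1) (T.erase x)
  have d5 := D t' T
  have d6 := D (t' - 1) T
  have d7 := D t' (T.erase x')
  have d8 := D (t' - 1) (T.erase x')
  rcases lt_trichotomy t t' with hlt | heq | hgt
  · exfalso
    have ho := order (R := R) hC a1 hlt (by omega)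
    have p1 : 0 ≤ addr h w T t' (h x') := Nat.zero_le _
    have p2 : 0 ≤ Dd h q M Φ TM t (T.erase x) := Nat.zero_le _
    have p3 : 0 ≤ Dd h q M Φ TM (t - 1) (T.erase x) := Nat.zero_le _
    have p4 : 0 ≤ Dd h q M Φ TM t' T := Nat.zero_le _
    have p5 : 0 ≤ Dd h q M Φ TM (t' - 1) T := Nat.zero_le _
    linarith
  · subst heq
    by_contra hne
    have hwt := hw t
    rcases dir_total (t := t) hne with hd | hd
    · have hgap := addr_gap (w := w) (T := T) (h := h) (by omega) hd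
      linarith
    · have hgap := addr_gap (w := w) (T := T) (h := h) (by omega) hd
      linarith
  · exfalso
    have ho := order (R := R) hC b1 hgt (by omega)
    have p1 : 0 ≤ addr h w T t (h x) := Nat.zero_le _
    have p2 : 0 ≤ Dd h q M Φ TM t' (T.erase x') := Nat.zero_le _
    have p3 : 0 ≤ Dd h q M Φ TM (t' - 1) (T.erase x') := Nat.zero_le _
    have p4 : 0 ≤ Dd h q M Φ TM t T := Nat.zero_le _
    have p5 : 0 ≤ Dd h q M Φ TM (t - 1) T := Nat.zero_le _
    linarith

/-- The values of good deletions lie in an interval of length less than `C (TM + 1)`.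

Proof. As in `same_cell`: `Z = stat T + Dsum T`, `Z = value + off`, and
`0 ≤ C 1 - R 1 - R 0 < off < C (TM + 1)` by `order` (with `t' = TM + 1`, for the upper bound; for the
lower bound `C t ≥ R t + R (t - 1)` follows from `order` with `1 < t`, or from `hC1` if `t = 1`). -/
theorem value_window {A : ℕ} (hR : ∀ u, 1 ≤ R u)
    (hΦ : ∀ s, 2 ≤ s → s ≤ TM → Compr (q s) s (R s) A (Φ s))
    (hC1 : R 1 + R 0 ≤ C 1)
    (hC : ∀ t, 1 ≤ t → t ≤ TM →
      C t + w t * N (t - 1) + w (t + 1) * N (t + 1) + 2 * (R t + R (t - 1) + R (t + 1)) ≤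
        C (t + 1))
    (hx : x ∈ T) (hg : Good h N q M TM (T.erase x)) :
    stat h C w TM (T.erase x) + Dsum h q M Φ TM (T.erase x) < stat h C w TM T + Dsum h q M Φ TM T ∧
    stat h C w TM T + Dsum h q M Φ TM T <
      stat h C w TM (T.erase x) + Dsum h q M Φ TM (T.erase x) + C (TM + 1) := by
  obtain ⟨a1, a2, a3⟩ := off_facts_rb (w := w) hx hg
  have e1 := total_erase (q := q) (M := M) (Φ := Φ) (w := w) (C := C) hx a2
  have D := fun u E => Dd_lt (h := h) (M := M) hR hΦ u E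
  obtain ⟨t, ht⟩ : ∃ t, t = ld h T (h x) := ⟨_, rfl⟩
  rw [← ht] at a1 a2 a3 e1
  have d1 := D t T
  have d2 := D (t - 1) T
  have d3 := D t (T.erase x)
  have d4 := D (t - 1) (T.erase x)
  have hCt : R t + R (t - 1) ≤ C t := by
    rcases Nat.eq_or_lt_of_le a1 with h1 | h1
    · rw [← h1]
      exact hC1
    · have ho := order (R := R) hC (le_refl 1) h1 (by omega)
      have p1 : 0 ≤ w 1 * N (1 - 1) := Nat.zero_le _
      have p2 : 0 ≤ w (1 + 1) * N (1 + 1) := Nat.zero_le _
      have p3 : 0 ≤ C 1 := Nat.zero_le _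
      have p4 : 0 ≤ R 1 := Nat.zero_le _
      have p5 : 0 ≤ R (1 - 1) := Nat.zero_le _
      linarith
  have ho := order (R := R) hC a1 (show t < TM + 1 by omega) le_rfl
  have p1 : 0 ≤ addr h w T t (h x) := Nat.zero_le _
  have p2 : 0 ≤ Dd h q M Φ TM t (T.erase x) := Nat.zero_le _
  have p3 : 0 ≤ Dd h q M Φ TM (t - 1) (T.erase x) := Nat.zero_le _
  have p4 : 0 ≤ Dd h q M Φ TM t T := Nat.zero_le _
  have p5 : 0 ≤ Dd h q M Φ TM (t - 1) T := Nat.zero_le _
  have p6 : 0 ≤ R (TM + 1) := Nat.zero_le _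
  have p7 : 0 ≤ R (TM + 1 - 1) := Nat.zero_le _
  constructor <;> linarith

end

end Pool.Agent.Helper81.RU
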