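import Pool.Agent.Helper81.RU.Adm2
import Pool.Agent.Helper34.RB.Tail

/-!
# RU-3: most integers have few prime power divisors
-/

open Finset

namespace Pool.Agent.Helper81.RU

/-- the prime powers up to `N` which are not prime -/
private def NP (N : ℕ) : Finset ℕ :=
  (Icc 1 N).filter fun q => IsPrimePow q ∧ ¬ q.Prime

private theorem pp_geom {p : ℝ} (hp : 2 ≤ p) (n : ℕ) (hn : 1 ≤ n) :
    ∑ i ∈ Icc 2 n, 1 / p ^ i ≤ 1 / (p * (p - 1)) - 1 / (p ^ n * (p - 1)) := by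
  have hp1 : 0 < p - 1 := by linarith
  have hp0 : 0 < p := by linarith
  induction n, hn using Nat.le_induction with
  | base => simp
  | succ n hn ih =>
    rw [Finset.sum_Icc_succ_top (by omega)]
    have h1 : 1 / p ^ (n + 1) = 1 / (p ^ n * (p - 1)) - 1 / (p ^ (n + 1) * (p - 1)) := by
      field_simp
      ring
    linarith

private theorem pp_tele (n : ℕ) (hn : 1 ≤ n) :
    ∑ p ∈ Icc 2 n, 1 / ((p : ℝ) * ((p : ℝ) - 1)) ≤ 1 - 1 / (n : ℝ) := by
  induction n, hn using Nat.le_induction with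
  | base => simp
  | succ n hn ih =>
    rw [Finset.sum_Icc_succ_top (by omega)]
    have hn0 : (0 : ℝ) < n := by exact_mod_cast (by omega : 0 < n)
    have h1 : 1 / (((n + 1 : ℕ) : ℝ) * (((n + 1 : ℕ) : ℝ) - 1)) =
        1 / (n : ℝ) - 1 / ((n + 1 : ℕ) : ℝ) := by
      push_cast
      rw [add_sub_cancel_right]
      field_simp
      ring
    linarith

private theorem pp_two (N : ℕ) :
    ∑ x ∈ Icc 2 N ×ˢ Icc 2 N, 1 / (x.1 : ℝ) ^ x.2 ≤ 1 := by
  rcases Nat.eq_zero_or_pos N with h0 | h0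
  · subst h0
    simp
  rw [Finset.sum_product]
  have h1 : ∀ p ∈ Icc 2 N, ∑ i ∈ Icc 2 N, 1 / (p : ℝ) ^ i ≤ 1 / ((p : ℝ) * ((p : ℝ) - 1)) := by
    intro p hp
    rw [mem_Icc] at hp
    have hp2 : (2 : ℝ) ≤ p := by exact_mod_cast hp.1
    refine (pp_geom hp2 N h0).trans ?_
    have h2 : 0 ≤ 1 / ((p : ℝ) ^ N * ((p : ℝ) - 1)) := by
      have : (0 : ℝ) < (p : ℝ) - 1 := by linarith
      positivity
    linarith
  refine (Finset.sum_le_sum h1).trans ((pp_tele N h0).trans ?_)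
  have h3 : (0 : ℝ) ≤ 1 / (N : ℝ) := by positivity
  linarith

private theorem pp_sum (N : ℕ) : ∑ q ∈ NP N, 1 / (q : ℝ) ≤ 1 := by
  have h1 : ∀ q ∈ NP N, 1 / (q : ℝ) ≤
      ∑ x ∈ Icc 2 N ×ˢ Icc 2 N, (if x.1 ^ x.2 = q then 1 / (x.1 : ℝ) ^ x.2 else 0) := by
    intro q hq
    rw [NP, mem_filter, mem_Icc] at hq
    obtain ⟨⟨hq1, hqN⟩, hpp, hnp⟩ := hq
    rw [isPrimePow_nat_iff] at hpp
    obtain ⟨p, i, hp, hi, rfl⟩ := hpp
    have hi2 : 2 ≤ i := by
      by_contra h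
      have : i = 1 := by omega
      subst this
      rw [pow_one] at hnp
      exact hnp hp
    have hiN : i < p ^ i := Nat.lt_pow_self hp.one_lt
    have hpN : p ≤ p ^ i := Nat.le_self_pow (by omega) p
    have hmem : (p, i) ∈ Icc 2 N ×ˢ Icc 2 N := by
      rw [mem_product, mem_Icc, mem_Icc]
      exact ⟨⟨hp.two_le, hpN.trans hqN⟩, hi2, hiN.le.trans hqN⟩
    have h2 := Finset.single_le_sum (s := Icc 2 N ×ˢ Icc 2 N)
      (f := fun x : ℕ × ℕ => if x.1 ^ x.2 = p ^ i then 1 / (x.1 : ℝ) ^ x.2 else 0)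
      (fun x _ => by
        split_ifs
        · positivity
        · exact le_rfl) hmem
    rw [if_pos rfl] at h2
    push_cast
    exact h2
  refine (Finset.sum_le_sum h1).trans ?_
  rw [Finset.sum_comm]
  refine le_trans (Finset.sum_le_sum fun x _ => ?_) (pp_two N)
  rw [Finset.sum_ite_eq]
  split_ifs
  · exact le_rfl
  · positivity

private theorem pp_one {N d : ℕ} (hd : 1 ≤ d) :
    ∑ a ∈ Icc 1 N, (if d ∣ a then 1 / (a : ℝ) else 0) ≤
      1 / (d : ℝ) * ∑ b ∈ Icc 1 N, 1 / (b : ℝ) := by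
  rw [← Finset.sum_filter]
  have h1 : ∀ a ∈ (Icc 1 N).filter (fun a => d ∣ a),
      1 / (a : ℝ) = 1 / (d : ℝ) * (1 / ((a / d : ℕ) : ℝ)) := by
    intro a ha
    rw [mem_filter] at ha
    obtain ⟨b, rfl⟩ := ha.2
    rw [Nat.mul_div_cancel_left b hd]
    push_cast
    rw [one_div_mul_one_div]
  rw [Finset.sum_congr rfl h1, ← Finset.mul_sum]
  refine mul_le_mul_of_nonneg_left ?_ (by positivity)
  have hinj : ∀ a ∈ (Icc 1 N).filter (fun a => d ∣ a),
      ∀ a' ∈ (Icc 1 N).filter (fun a => d ∣ a), a / d = a' / d → a = a' := by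
    intro a ha a' ha' h
    rw [mem_filter] at ha ha'
    rw [← Nat.div_mul_cancel ha.2, ← Nat.div_mul_cancel ha'.2, h]
  rw [← Finset.sum_image (f := fun b : ℕ => 1 / (b : ℝ)) (g := fun a => a / d)
    (fun a ha a' ha' h => hinj a ha a' ha' h)]
  refine Finset.sum_le_sum_of_subset_of_nonneg ?_ (fun b _ _ => by positivity)
  intro b hb
  rw [mem_image] at hb
  obtain ⟨a, ha, rfl⟩ := hb
  rw [mem_filter, mem_Icc] at ha
  rw [mem_Icc]
  exact ⟨Nat.div_pos (Nat.le_of_dvd (by omega) ha.2) hd, (Nat.div_le_self _ _).trans ha.1.2⟩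

/-- the number of the proper prime powers up to `N` dividing `a` -/
private def ee (N a : ℕ) : ℕ := ((NP N).filter fun q => q ∣ a).card

private theorem ee_sum (N : ℕ) :
    ∑ a ∈ Icc 1 N, (ee N a : ℝ) * (1 / (a : ℝ)) ≤ ∑ b ∈ Icc 1 N, 1 / (b : ℝ) := by
  have h1 : ∀ a ∈ Icc 1 N, (ee N a : ℝ) * (1 / (a : ℝ)) =
      ∑ q ∈ NP N, (if q ∣ a then 1 / (a : ℝ) else 0) := by
    intro a _
    rw [← Finset.sum_filter, Finset.sum_const, nsmul_eq_mul, ee]
  rw [Finset.sum_congr rfl h1, Finset.sum_comm]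
  have h2 : ∀ q ∈ NP N, ∑ a ∈ Icc 1 N, (if q ∣ a then 1 / (a : ℝ) else 0) ≤
      1 / (q : ℝ) * ∑ b ∈ Icc 1 N, 1 / (b : ℝ) := by
    intro q hq
    rw [NP, mem_filter, mem_Icc] at hq
    exact pp_one hq.1.1
  refine (Finset.sum_le_sum h2).trans ?_
  rw [← Finset.sum_mul]
  calc (∑ q ∈ NP N, 1 / (q : ℝ)) * ∑ b ∈ Icc 1 N, 1 / (b : ℝ)
      ≤ 1 * ∑ b ∈ Icc 1 N, 1 / (b : ℝ) :=
        mul_le_mul_of_nonneg_right (pp_sum N) (Finset.sum_nonneg fun b _ => by positivity)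
    _ = ∑ b ∈ Icc 1 N, 1 / (b : ℝ) := one_mul _

private theorem SP_card {N a : ℕ} (ha : a ∈ Icc 1 N) :
    (SP N a).card ≤ Helper16.UB.om a + ee N a := by
  rw [mem_Icc] at ha
  have h1 : (SP N a).map ⟨fun q : Fin (N + 1) => (q : ℕ), fun x y h => Fin.ext h⟩ ⊆
      a.primeFactors ∪ (NP N).filter fun q => q ∣ a := by
    intro q hq
    rw [mem_map] at hq
    obtain ⟨x, hx, rfl⟩ := hq
    rw [SP, mem_filter] at hx
    obtain ⟨-, hpp, hdv⟩ := hx
    rw [mem_union, Nat.mem_primeFactors, mem_filter, NP, mem_filter, mem_Icc]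
    simp only [Function.Embedding.coeFn_mk]
    by_cases hpr : (x : ℕ).Prime
    · exact Or.inl ⟨hpr, hdv, by omega⟩
    · refine Or.inr ⟨⟨⟨hpp.pos, ?_⟩, hpp, hpr⟩, hdv⟩
      have := x.isLt
      omega
  have h2 := Finset.card_le_card h1
  rw [card_map] at h2
  exact h2.trans (Finset.card_union_le _ _)

/-- Proof. Let `e a` be the number of the `q ∈ SP N a` (or of the `q ∈ Icc 1 N`, `IsPrimePow q`,
`q ∣ a`) which are not prime.  For `1 ≤ a ≤ N`: `(SP N a).card ≤ om a + e a` (`om a` is the number of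
the prime factors, Helper16/UB; the primes of `SP N a` inject into `a.primeFactors`).
`∑ a ∈ Icc 1 N, e a / a = ∑ q (∑ a ∈ Icc 1 N, q ∣ a, 1 / a) ≤ (∑ q, 1 / q) * ∑ b ∈ Icc 1 N, 1 / b`
over the prime powers `q ≤ N` which are not prime (`a = q b`, `b ≤ N`; compare `rough_one` in
Helper34/RB/Rough.lean), and `∑ q, 1 / q ≤ ∑ p ∈ Icc 2 N, ∑ i ∈ Icc 2 N, 1 / p ^ i ≤
∑ p ∈ Icc 2 N, 1 / (p (p - 1)) ≤ 1` (the set of these `q` is contained in the image of
`(p, i) ↦ p ^ i`; geometric sum; telescoping).  If `k + D < (SP N a).card` then `k < om a` or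
`D ≤ e a`, so the left side is at most `∑ (k < om a) 1 / a + (1 / D) ∑ a, e a / a`. -/
theorem weight2 {N k D : ℕ} (hD : 1 ≤ D) :
    ∑ a ∈ (Icc 1 N).filter (fun a => k + D < (SP N a).card), 1 / (a : ℝ) ≤
      ∑ a ∈ (Icc 1 N).filter (fun a => k < Helper16.UB.om a), 1 / (a : ℝ) +
        1 / (D : ℝ) * ∑ b ∈ Icc 1 N, 1 / (b : ℝ) := by
  have hD0 : (0 : ℝ) < D := by exact_mod_cast hD
  have h1 : ∀ a ∈ Icc 1 N, (if k + D < (SP N a).card then 1 / (a : ℝ) else 0) ≤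
      (if k < Helper16.UB.om a then 1 / (a : ℝ) else 0) +
        1 / (D : ℝ) * ((ee N a : ℝ) * (1 / (a : ℝ))) := by
    intro a ha
    have hc := SP_card ha
    have ha0 : (0 : ℝ) ≤ 1 / (a : ℝ) := by positivity
    have he0 : (0 : ℝ) ≤ 1 / (D : ℝ) * ((ee N a : ℝ) * (1 / (a : ℝ))) := by positivity
    split_ifs with h2 h3 h3
    · linarith
    · have h4 : D ≤ ee N a := by omega
      have h5 : (D : ℝ) ≤ ee N a := by exact_mod_cast h4
      have h6 : 1 ≤ 1 / (D : ℝ) * (ee N a : ℝ) := by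
        rw [one_div, ← div_eq_inv_mul, one_le_div hD0]
        exact h5
      calc 1 / (a : ℝ) = 1 * (1 / (a : ℝ)) := (one_mul _).symm
        _ ≤ 1 / (D : ℝ) * (ee N a : ℝ) * (1 / (a : ℝ)) := mul_le_mul_of_nonneg_right h6 ha0
        _ = 0 + 1 / (D : ℝ) * ((ee N a : ℝ) * (1 / (a : ℝ))) := by ring
    · linarith
    · linarith
  rw [Finset.sum_filter, Finset.sum_filter]
  refine (Finset.sum_le_sum h1).trans ?_
  rw [Finset.sum_add_distrib, ← Finset.mul_sum]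
  have h2 : 1 / (D : ℝ) * ∑ a ∈ Icc 1 N, (ee N a : ℝ) * (1 / (a : ℝ)) ≤
      1 / (D : ℝ) * ∑ b ∈ Icc 1 N, 1 / (b : ℝ) :=
    mul_le_mul_of_nonneg_left (ee_sum N) (by positivity)
  linarith

end Pool.Agent.Helper81.RU
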