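import Pool.Agent.Helper81.RU.Defs

/-!
# The sum of the compressed digits after a deletion

Copy of RB-15 with the range `[2, TM]`.
-/

open Finset

namespace Pool.Agent.Helper81.RU

open Pool.Agent.Helper34.RB hiding Dd Dsum Good

section

variable {X : Type} [LinearOrder X] {n : ℕ} {h : X → Fin n} {T : Finset X} {x : X}
  {q : ℕ → ℕ} {M : ∀ s, ℕ → Finset X → ZMod (q s)} {Φ : ∀ s, (Fin (s - 1) → ZMod (q s)) → ℕ}
  {TM : ℕ}

private lemma win_split (I : Finset ℕ) (f : ℕ → ℕ) {t t' : ℕ} (ht : t ≠ t') :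
    ∑ s ∈ I, f s = ∑ s ∈ I, (if s = t ∨ s = t' then 0 else f s) +
      (if t ∈ I then f t else 0) + (if t' ∈ I then f t' else 0) := by
  rw [← Finset.sum_ite_eq' I t f, ← Finset.sum_ite_eq' I t' f, ← Finset.sum_add_distrib,
    ← Finset.sum_add_distrib]
  refine Finset.sum_congr rfl fun s _ => ?_
  by_cases h1 : s = t
  · have h2 : s ≠ t' := fun h3 => ht (h1.symm.trans h3)
    rw [if_pos (Or.inl h1), if_pos h1, if_neg h2]
    ring
  · by_cases h2 : s = t'
    · rw [if_pos (Or.inr h2), if_neg h1, if_pos h2]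
      ring
    · rw [if_neg (by tauto), if_neg h1, if_neg h2]
      ring

/-- Proof. If `u ∉ Icc 2 TM` it is `0 < R u`.  Otherwise `Ds` is `0` or a value of `Φ u`, which is
`< R u` by `(hΦ u _ _).1`. -/
theorem Dd_lt {A : ℕ} {R : ℕ → ℕ} (hR : ∀ u, 1 ≤ R u)
    (hΦ : ∀ s, 2 ≤ s → s ≤ TM → Compr (q s) s (R s) A (Φ s)) (u : ℕ) (E : Finset X) :
    Dd h q M Φ TM u E < R u := by
  unfold Dd Ds
  have h0 := hR u
  split_ifs with h1 h2
  · omega
  · rw [mem_Icc] at h1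
    exact (hΦ u h1.1 h1.2).1 _
  · omega

/-- Proof. Let `t = ld h T (h x) ≥ 1` (`ld_pos`).  For `s ∈ Icc 2 TM` with `s ≠ t`, `s ≠ t - 1`, the
terms `Ds` of `T` and `T.erase x` agree (`Ds_erase_of_ne`).  Write
`Dsum E = ∑ s ∈ (Icc 2 TM).filter (s ≠ t ∧ s ≠ t - 1), _ + Dd t E + Dd (t - 1) E` for every `E`
(e.g. `∑ s ∈ Icc 2 TM, f s = ∑ s ∈ Icc 2 TM, (if s = t ∨ s = t - 1 then 0 else f s) +
∑ s ∈ Icc 2 TM, (if s = t then f s else 0) + ∑ s ∈ Icc 2 TM, (if s = t - 1 then f s else 0)`, as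
`t ≠ t - 1`; `Finset.sum_ite_eq'`), and compare for `E = T` and `E = T.erase x`. -/
theorem Dsum_erase (hx : x ∈ T) :
    Dsum h q M Φ TM T + Dd h q M Φ TM (ld h T (h x)) (T.erase x) +
        Dd h q M Φ TM (ld h T (h x) - 1) (T.erase x) =
      Dsum h q M Φ TM (T.erase x) + Dd h q M Φ TM (ld h T (h x)) T +
        Dd h q M Φ TM (ld h T (h x) - 1) T := by
  have hpos : 0 < ld h T (h x) := ld_pos hx
  have hne : ld h T (h x) ≠ ld h T (h x) - 1 := by omega
  have key : ∀ E : Finset X, Dsum h q M Φ TM E =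
      ∑ s ∈ Icc 2 TM, (if s = ld h T (h x) ∨ s = ld h T (h x) - 1 then 0 else
        Ds h (q s) (M s) s (Φ s) E) + Dd h q M Φ TM (ld h T (h x)) E +
        Dd h q M Φ TM (ld h T (h x) - 1) E := by
    intro E
    exact win_split (Icc 2 TM) (fun s => Ds h (q s) (M s) s (Φ s) E) hne
  have hsame : ∑ s ∈ Icc 2 TM, (if s = ld h T (h x) ∨ s = ld h T (h x) - 1 then 0 else
        Ds h (q s) (M s) s (Φ s) (T.erase x)) =
      ∑ s ∈ Icc 2 TM, (if s = ld h T (h x) ∨ s = ld h T (h x) - 1 then 0 else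
        Ds h (q s) (M s) s (Φ s) T) := by
    refine Finset.sum_congr rfl fun s _ => ?_
    by_cases h1 : s = ld h T (h x) ∨ s = ld h T (h x) - 1
    · rw [if_pos h1, if_pos h1]
    · rw [if_neg h1, if_neg h1]
      exact Ds_erase_of_ne hx (by tauto) (by omega)
  rw [key T, key (T.erase x), hsame]
  ring

end

end Pool.Agent.Helper81.RU
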